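import Pool.Agent.Helper85_Idx.Basic

set_option autoImplicit false

namespace Pool.Agent.Idx.H85

theorem sgl : SglStmt := by
  intro T G _ ev Γ A f σ c hD hF hS E u b hm u' hu'
  obtain ⟨n, hD⟩ := hD
  obtain ⟨c₁, c₂, rfl⟩ := List.append_of_mem hm
  have hF' := Fill_replace hF hu'
  have hD' : D Γ n [Sum.inr A] [f] (form (c₁ ++ Sum.inr (E, u', b) :: c₂)) := by
    simpa [isym] using hD
  have h1 := hS _ (Lang_of_Fill hD' hF')
  simp only [flat_append, flat_cons, iword, val_append] at h1
  exact mul_right_cancel (mul_left_cancel h1)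

end Pool.Agent.Idx.H85
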