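import Pool.Agent.Helper85_Idx.Basic

/-!
# Final assembly
-/

set_option autoImplicit false

namespace Pool.Agent.Idx.H85

/-- every element is the value of a word in the generators and their inverses -/
theorem exists_word {G : Type} [Group G] {ι : Type} (g : ι → G)
    (hg : Subgroup.closure (Set.range g) = ⊤) (x : G) :
    ∃ w : List (ι ⊕ ι), (w.map (Sum.elim g (fun i => (g i)⁻¹))).prod = x := by
  have hx : x ∈ Subgroup.closure (Set.range g) := by rw [hg]; exact Subgroup.mem_top x
  have inv_word : ∀ w : List (ι ⊕ ι), ∃ w' : List (ι ⊕ ι),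
      (w'.map (Sum.elim g (fun i => (g i)⁻¹))).prod =
        ((w.map (Sum.elim g (fun i => (g i)⁻¹))).prod)⁻¹ := by
    intro w
    induction w with
    | nil => exact ⟨[], by simp⟩
    | cons t w ih =>
      obtain ⟨w', hw'⟩ := ih
      refine ⟨w' ++ [t.swap], ?_⟩
      rcases t with i | i <;> simp [hw']
  induction hx using Subgroup.closure_induction with
  | mem x hx =>
    obtain ⟨i, rfl⟩ := hx
    exact ⟨[Sum.inl i], by simp⟩
  | one => exact ⟨[], by simp⟩
  | mul x y _ _ h1 h2 =>
    obtain ⟨w1, rfl⟩ := h1
    obtain ⟨w2, rfl⟩ := h2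
    exact ⟨w1 ++ w2, by simp⟩
  | inv x _ h =>
    obtain ⟨w, rfl⟩ := h
    exact inv_word w

theorem val_flatten {G : Type} [Group G] {T T' : Type} (E : T → G) (ev : T' → G)
    (φ : T' → List T) (h : ∀ x, ((φ x).map E).prod = ev x) (w : List T') :
    (((w.map φ).flatten).map E).prod = val ev w := by
  induction w with
  | nil => simp
  | cons x w ih =>
    have h2 : val ev (x :: w) = ev x * val ev w := by simp [val]
    rw [List.map_cons, List.flatten_cons, List.map_append, List.prod_append, h, ih, h2]

/-- the grammar of the word problem in new letters -/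
theorem exists_gram (hN : NormStmt) (hC : ClosStmt) {G : Type} [Group G] {ι : Type} (g : ι → G)
    (hg : Subgroup.closure (Set.range g) = ⊤) (hI : IsIndexed (WP g)) {T' : Type}
    (hT : Finite T') (ev : T' → G) (hev : ∀ x, ev x ≠ 1) :
    ∃ Γ : Gram T', Lang Γ Γ.S [Γ.bot] = {w | val ev w = 1} := by
  obtain ⟨Γ, hΓ⟩ := hN _ _ hI
  choose φ hφ using fun x => exists_word g hg (ev x)
  have hne : ∀ x, φ x ≠ [] := by
    intro x hx
    apply hev x
    rw [← hφ x, hx]
    simp
  obtain ⟨Γ', hΓ'⟩ := hC _ _ hT Γ φ hne
  refine ⟨Γ', ?_⟩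
  rw [hΓ', ← hΓ]
  ext w
  show (((w.map φ).flatten).map (Sum.elim g (fun i => (g i)⁻¹))).prod = 1 ↔ val ev w = 1
  rw [val_flatten _ ev φ hφ]

section CaseI

variable {G : Type} [Group G]

/-- evaluation of the letters `(i, s)`: generators `a, b, z` and their inverses -/
def ev3 (a b z : G) (t : Fin 3 × Bool) : G :=
  if t.2 then (![a, b, z] t.1)⁻¹ else ![a, b, z] t.1

/-- exponent of `z` -/
def v3 (t : Fin 3 × Bool) : ℤ := if t.1 = 2 then (if t.2 then -1 else 1) else 0

theorem val3 (a b z : G) (hza : Commute z a) (hzb : Commute z b) (w : List (Fin 3 × Bool)) :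
    ∃ k ∈ Subgroup.closure ({a, b} : Set G), val (ev3 a b z) w = k * z ^ (vs v3 w) := by
  have hcen : ∀ k ∈ Subgroup.closure ({a, b} : Set G), Commute z k := by
    intro k hk
    induction hk using Subgroup.closure_induction with
    | mem x hx =>
      rcases hx with rfl | hx
      · exact hza
      · rw [Set.mem_singleton_iff] at hx
        rw [hx]
        exact hzb
    | one => exact Commute.one_right z
    | mul x y _ _ h1 h2 => exact h1.mul_right h2
    | inv x _ h => exact h.inv_right
  induction w with
  | nil => exact ⟨1, Subgroup.one_mem _, by simp [vs]⟩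
  | cons t w ih =>
    obtain ⟨k, hk, h⟩ := ih
    have h2 : val (ev3 a b z) (t :: w) = ev3 a b z t * val (ev3 a b z) w := by simp [val]
    have h3 : vs v3 (t :: w) = v3 t + vs v3 w := by simp [vs]
    rw [h2, h3, h]
    have haK : a ∈ Subgroup.closure ({a, b} : Set G) := Subgroup.subset_closure (by simp)
    have hbK : b ∈ Subgroup.closure ({a, b} : Set G) := Subgroup.subset_closure (by simp)
    obtain ⟨i, s⟩ := t
    fin_cases i
    · cases s
      · exact ⟨a * k, Subgroup.mul_mem _ haK hk, by simp [ev3, v3, mul_assoc]⟩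
      · exact ⟨a⁻¹ * k, Subgroup.mul_mem _ (Subgroup.inv_mem _ haK) hk,
          by simp [ev3, v3, mul_assoc]⟩
    · cases s
      · exact ⟨b * k, Subgroup.mul_mem _ hbK hk, by simp [ev3, v3, mul_assoc]⟩
      · exact ⟨b⁻¹ * k, Subgroup.mul_mem _ (Subgroup.inv_mem _ hbK) hk,
          by simp [ev3, v3, mul_assoc]⟩
    · cases s
      · refine ⟨k, hk, ?_⟩
        have h4 : z * k = k * z := hcen k hk
        simp only [ev3, v3]
        simp only [Bool.false_eq_true, if_false, if_true, Fin.reduceFinMk, Matrix.cons_val]
        rw [← mul_assoc, h4, mul_assoc, zpow_add, zpow_one]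
      · refine ⟨k, hk, ?_⟩
        have h4 : z⁻¹ * k = k * z⁻¹ := (hcen k hk).inv_left
        simp only [ev3, v3]
        simp only [if_true, Fin.reduceFinMk, Matrix.cons_val]
        rw [← mul_assoc, h4, mul_assoc, zpow_add, zpow_neg_one]

/-- the letters of case I -/
def setup1 (a b z : G)
    (hfree : Function.Injective (fun w : List Bool => (w.map (fun x => if x then a else b)).prod))
    (hza : Commute z a) (hzb : Commute z b)
    (hz : ∀ n : ℤ, n ≠ 0 → z ^ n ∉ Subgroup.closure ({a, b} : Set G)) : ZSetup where
  T := Fin 3 × Bool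
  H := G
  grp := inferInstance
  ev := ev3 a b z
  pl := fun x => (if x then 0 else 1, false)
  ni := fun x => (if x then 0 else 1, true)
  inv := by intro x; cases x <;> simp [ev3]
  free := by
    have h : (fun w : List Bool => (w.map (fun x => ev3 a b z (if x then 0 else 1, false))).prod) =
        (fun w : List Bool => (w.map (fun x => if x then a else b)).prod) := by
      funext w
      congr 2
      funext x
      cases x <;> simp [ev3]
    rw [h]
    exact hfree
  z := (2, false)
  z' := (2, true)
  zinv := by simp [ev3]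
  comm := by
    intro x
    cases x
    · simpa [ev3] using hzb
    · simpa [ev3] using hza
  v := v3
  vz := by simp [v3]
  vz' := by simp [v3]
  vp := by intro x; cases x <;> simp [v3]
  vn := by intro x; cases x <;> simp [v3]
  v1 := by
    intro t
    simp only [v3]
    split_ifs <;> simp
  vc := by
    intro w w' h
    obtain ⟨k, hk, h1⟩ := val3 a b z hza hzb w
    obtain ⟨k', hk', h2⟩ := val3 a b z hza hzb w'
    by_contra hne
    have h3 : z ^ (vs v3 w - vs v3 w') = k⁻¹ * k' := by
      rw [h1, h2] at h
      rw [zpow_sub, eq_comm, inv_mul_eq_iff_eq_mul, ← mul_assoc, h, mul_assoc, mul_inv_cancel,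
        mul_one]
    refine hz _ (sub_ne_zero.2 hne) ?_
    rw [h3]
    exact Subgroup.mul_mem _ (Subgroup.inv_mem _ hk) hk'

theorem ev3_ne_one (a b z : G)
    (hfree : Function.Injective (fun w : List Bool => (w.map (fun x => if x then a else b)).prod))
    (hz : ∀ n : ℤ, n ≠ 0 → z ^ n ∉ Subgroup.closure ({a, b} : Set G)) (t : Fin 3 × Bool) :
    ev3 a b z t ≠ 1 := by
  have ha : a ≠ 1 := by
    intro h
    have := @hfree [true] [] (by simp [h])
    simp at this
  have hb : b ≠ 1 := by
    intro h
    have := @hfree [false] [] (by simp [h])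
    simp at this
  have hz1 : z ≠ 1 := by
    intro h
    refine hz 1 one_ne_zero ?_
    rw [h, zpow_one]
    exact Subgroup.one_mem _
  obtain ⟨i, s⟩ := t
  fin_cases i <;> cases s <;> simp [ev3, ha, hb, hz1]

theorem fin1 (hN : NormStmt) (hC : ClosStmt) (hF : FrameStmt) (hT : TreeStmt)
    {ι : Type} (g : ι → G) (hg : Subgroup.closure (Set.range g) = ⊤) (hI : IsIndexed (WP g))
    (a b z : G)
    (hfree : Function.Injective (fun w : List Bool => (w.map (fun x => if x then a else b)).prod))
    (hza : Commute z a) (hzb : Commute z b) :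
    ∃ n : ℤ, n ≠ 0 ∧ z ^ n ∈ Subgroup.closure ({a, b} : Set G) := by
  by_contra hcon
  push Not at hcon
  have hz : ∀ n : ℤ, n ≠ 0 → z ^ n ∉ Subgroup.closure ({a, b} : Set G) := fun n hn => hcon n hn
  obtain ⟨Γ, hΓ⟩ := exists_gram hN hC g hg hI (T' := Fin 3 × Bool) inferInstance (ev3 a b z)
    (ev3_ne_one a b z hfree hz)
  obtain ⟨R, Dc, C, p, hR, hp, hFr⟩ := hF (setup1 a b z hfree hza hzb hz).toSetup Γ hΓ
  obtain ⟨K, B, V, hV, segs, μ, hd, hn⟩ := hT (setup1 a b z hfree hza hzb hz) R Dc C p hR hp
  obtain ⟨l₀, hl⟩ := hFr K B V hV segs μ _ hd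
  exact hn (max l₀ 1) (le_max_right _ _) (hl (max l₀ 1) (le_max_left _ _))

end CaseI

section CaseII

variable {G : Type} [Group G]

/-- evaluation of the letters `(x, s)`: generators `a, b` and their inverses -/
def ev2 (a b : G) (t : Bool × Bool) : G :=
  if t.2 then (if t.1 then a else b)⁻¹ else (if t.1 then a else b)

/-- the letters of case II -/
def setup2 (a b : G)
    (hfree : Function.Injective (fun w : List Bool => (w.map (fun x => if x then a else b)).prod)) :
    Setup where
  T := Bool × Bool
  H := G
  grp := inferInstance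
  ev := ev2 a b
  pl := fun x => (x, false)
  ni := fun x => (x, true)
  inv := by intro x; simp [ev2]
  free := by
    have h : (fun w : List Bool => (w.map (fun x => ev2 a b (x, false))).prod) =
        (fun w : List Bool => (w.map (fun x => if x then a else b)).prod) := by
      funext w
      simp [ev2]
    rw [h]
    exact hfree

theorem fin2 (hN : NormStmt) (hC : ClosStmt) (hF : FrameStmt) (hM : MatrStmt)
    {ι : Type} (g : ι → G) (hg : Subgroup.closure (Set.range g) = ⊤) (hI : IsIndexed (WP g))
    (a b : G)
    (hfree : Function.Injective (fun w : List Bool => (w.map (fun x => if x then a else b)).prod)) :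
    ∃ u u' : List Bool, ¬ Commute
      ((u.map (fun x => if x then a else b)).prod * (a ^ u.length)⁻¹)
      ((u'.map (fun x => if x then a else b)).prod * (a ^ u'.length)⁻¹) := by
  by_contra hcon
  push Not at hcon
  have hev : ∀ t, ev2 a b t ≠ 1 := by
    have ha : a ≠ 1 := by
      intro h
      have := @hfree [true] [] (by simp [h])
      simp at this
    have hb : b ≠ 1 := by
      intro h
      have := @hfree [false] [] (by simp [h])
      simp at this
    rintro ⟨x, s⟩
    cases x <;> cases s <;> simp [ev2, ha, hb]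
  obtain ⟨Γ, hΓ⟩ := exists_gram hN hC g hg hI (T' := Bool × Bool) inferInstance (ev2 a b) hev
  obtain ⟨R, Dc, C, p, hR, hp, hFr⟩ := hF (setup2 a b hfree) Γ hΓ
  have hcom : Comm2 (setup2 a b hfree) := by
    intro u u'
    have key : ∀ w : List Bool, val (setup2 a b hfree).ev (w.map (setup2 a b hfree).pl) *
        ((setup2 a b hfree).ev ((setup2 a b hfree).pl true))⁻¹ ^ w.length =
        (w.map (fun x => if x then a else b)).prod * (a ^ w.length)⁻¹ := by
      intro w
      have h1 : val (setup2 a b hfree).ev (w.map (setup2 a b hfree).pl) =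
          (w.map (fun x => if x then a else b)).prod := by
        simp only [val, List.map_map]
        congr 2
      have h2 : (setup2 a b hfree).ev ((setup2 a b hfree).pl true) = a := by
        simp [setup2, ev2]
      rw [h1, h2]
      exact congrArg (fun y => (w.map (fun x => if x then a else b)).prod * y)
        (inv_pow a w.length)
    rw [key u, key u']
    exact hcon u u'
  obtain ⟨K, B, V, hV, segs, μ, hd, hn⟩ := hM (setup2 a b hfree) hcom R Dc C p hR hp
  obtain ⟨l₀, hl⟩ := hFr K B V hV segs μ _ hd
  exact hn (max l₀ 1) (le_max_right _ _) (hl (max l₀ 1) (le_max_left _ _))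

end CaseII

end Pool.Agent.Idx.H85
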