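import Pool.Agent.Helper85_Idx.Stmts

/-!
# Basic lemmas on derivations and annotated forms
-/

set_option autoImplicit false

namespace Pool.Agent.Idx

variable {T : Type} {Γ : Gram T}

/-! ## Derivations -/

theorem D_append {n : ℕ} {α : List (T ⊕ Γ.N)} {τ : List Γ.F} {φ : List (T ⊕ Γ.N)}
    (h : D Γ n α τ φ) : ∀ {m : ℕ} {β ψ : List (T ⊕ Γ.N)}, D Γ m β τ ψ →
      D Γ (n + m) (α ++ β) τ (φ ++ ψ) := by
  induction h with
  | nil τ => intro m β ψ h2; simpa using h2
  | term t _ ih => intro m β ψ h2; exact D.term t (ih h2)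
  | ret A _ ih => intro m β ψ h2; exact D.ret A (ih h2)
  | @r1 n m' A γ α τ φ φ' hτ hA h1 h1' ih ih' =>
    intro m β ψ h2
    have := D.r1 hτ hA h1 (ih' h2)
    simpa [Nat.add_comm, Nat.add_left_comm, Nat.add_assoc] using this
  | @r2 n m' A B f α τ φ φ' hτ hA h1 h1' ih ih' =>
    intro m β ψ h2
    have := D.r2 hτ hA h1 (ih' h2)
    simpa [Nat.add_comm, Nat.add_left_comm, Nat.add_assoc] using this
  | @r3 n m' A f γ α τ φ φ' hA h1 h1' ih ih' =>
    intro m β ψ h2
    have := D.r3 hA h1 (ih' h2)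
    simpa [Nat.add_comm, Nat.add_left_comm, Nat.add_assoc] using this

theorem D_nil {n : ℕ} {τ : List Γ.F} {φ : List (T ⊕ Γ.N)} (h : D Γ n [] τ φ) :
    n = 0 ∧ φ = [] := by
  cases h; exact ⟨rfl, rfl⟩

theorem D_term_inv {n : ℕ} {t : T} {α : List (T ⊕ Γ.N)} {τ : List Γ.F} {φ : List (T ⊕ Γ.N)}
    (h : D Γ n (Sum.inl t :: α) τ φ) : ∃ ψ, φ = Sum.inl t :: ψ ∧ D Γ n α τ ψ := by
  cases h with
  | term _ h => exact ⟨_, rfl, h⟩

/-- a derivation with empty stack does nothing -/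
theorem D_empty {n : ℕ} {α φ : List (T ⊕ Γ.N)} (h : D Γ n α [] φ) : n = 0 ∧ φ = α := by
  induction α generalizing n φ with
  | nil => exact D_nil h
  | cons a α ih =>
    cases h with
    | term t h => obtain ⟨rfl, rfl⟩ := ih h; exact ⟨rfl, rfl⟩
    | ret A h => obtain ⟨rfl, rfl⟩ := ih h; exact ⟨rfl, rfl⟩
    | r1 hτ _ _ _ => exact absurd rfl hτ
    | r2 hτ _ _ _ => exact absurd rfl hτ

theorem D_refl (α : List (T ⊕ Γ.N)) : D Γ 0 α [] α := by
  induction α with
  | nil => exact D.nil _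
  | cons a α ih =>
    cases a with
    | inl t => exact D.term t ih
    | inr A => exact D.ret A ih

/-- terminal words derive themselves -/
theorem D_word (w : List T) (τ : List Γ.F) : D Γ 0 (w.map Sum.inl) τ (w.map Sum.inl) := by
  induction w with
  | nil => exact D.nil _
  | cons a w ih => exact D.term a ih

theorem D_word_inv {n : ℕ} {w : List T} {τ : List Γ.F} {φ : List (T ⊕ Γ.N)}
    (h : D Γ n (w.map Sum.inl) τ φ) : n = 0 ∧ φ = w.map Sum.inl := by
  induction w generalizing n φ with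
  | nil => exact D_nil h
  | cons a w ih =>
    obtain ⟨ψ, rfl, h'⟩ := D_term_inv h
    obtain ⟨rfl, rfl⟩ := ih h'
    exact ⟨rfl, rfl⟩

/-- a derivation from `A :: α` splits off a derivation from `A` -/
theorem D_cons_inv {n : ℕ} {A : Γ.N} {α : List (T ⊕ Γ.N)} {τ : List Γ.F}
    {φ : List (T ⊕ Γ.N)} (h : D Γ n (Sum.inr A :: α) τ φ) :
    ∃ n₁ n₂ φ₁ φ₂, n₁ + n₂ = n ∧ φ = φ₁ ++ φ₂ ∧ D Γ n₁ [Sum.inr A] τ φ₁ ∧ D Γ n₂ α τ φ₂ := by
  cases h with
  | ret A h => exact ⟨0, n, [Sum.inr A], _, by simp, rfl, D.ret A (D.nil _), h⟩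
  | @r1 n m _ γ _ _ φ φ' hτ hA h1 h2 =>
    refine ⟨n + 0 + 1, m, φ ++ [], φ', by omega, by simp, D.r1 hτ hA h1 (D.nil _), h2⟩
  | @r2 n m _ B f _ _ φ φ' hτ hA h1 h2 =>
    refine ⟨n + 0 + 1, m, φ ++ [], φ', by omega, by simp, D.r2 hτ hA h1 (D.nil _), h2⟩
  | @r3 n m _ f γ _ _ φ φ' hA h1 h2 =>
    refine ⟨n + 0 + 1, m, φ ++ [], φ', by omega, by simp, D.r3 hA h1 (D.nil _), h2⟩

theorem D_split {α : List (T ⊕ Γ.N)} : ∀ {n : ℕ} {β : List (T ⊕ Γ.N)} {τ : List Γ.F}
    {χ : List (T ⊕ Γ.N)}, D Γ n (α ++ β) τ χ →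
    ∃ n₁ n₂ φ₁ φ₂, n₁ + n₂ = n ∧ χ = φ₁ ++ φ₂ ∧ D Γ n₁ α τ φ₁ ∧ D Γ n₂ β τ φ₂ := by
  induction α with
  | nil =>
    intro n β τ χ h
    exact ⟨0, n, [], χ, by simp, rfl, D.nil _, h⟩
  | cons a α ih =>
    intro n β τ χ h
    cases a with
    | inl t =>
      obtain ⟨ψ, rfl, h'⟩ := D_term_inv h
      obtain ⟨n₁, n₂, φ₁, φ₂, h1, rfl, h3, h4⟩ := ih h'
      exact ⟨n₁, n₂, Sum.inl t :: φ₁, φ₂, h1, rfl, D.term t h3, h4⟩
    | inr A =>
      obtain ⟨n₁, n₂, φ₁, φ₂, h1, rfl, h3, h4⟩ := D_cons_inv h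
      obtain ⟨m₁, m₂, ψ₁, ψ₂, h1', rfl, h3', h4'⟩ := ih h4
      refine ⟨n₁ + m₁, m₂, φ₁ ++ ψ₁, ψ₂, by omega, by simp, ?_, h4'⟩
      exact D_append h3 h3'

/-- stack lemma, decomposition -/
theorem D_stack {n : ℕ} {α : List (T ⊕ Γ.N)} {ρ : List Γ.F} {φ : List (T ⊕ Γ.N)}
    (h : D Γ n α ρ φ) : ∀ (τ σ : List Γ.F), ρ = τ ++ σ →
      ∃ m l ψ, m + l = n ∧ D Γ m α τ ψ ∧ D Γ l ψ σ φ := by
  induction h with
  | nil ρ => intro τ σ _; exact ⟨0, 0, [], rfl, D.nil _, D.nil _⟩
  | term t _ ih =>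
    intro τ σ hρ
    obtain ⟨m, l, ψ, h1, h2, h3⟩ := ih τ σ hρ
    exact ⟨m, l, Sum.inl t :: ψ, h1, D.term t h2, D.term t h3⟩
  | ret A _ ih =>
    intro τ σ hρ
    obtain ⟨rfl, rfl⟩ : τ = [] ∧ σ = [] := by simpa using hρ.symm
    obtain ⟨m, l, ψ, h1, h2, h3⟩ := ih [] [] rfl
    exact ⟨m, l, Sum.inr A :: ψ, h1, D.ret A h2, D.ret A h3⟩
  | @r1 n m' A γ α ρ φ φ' hτ hA h1 h1' ih ih' =>
    intro τ σ hρ
    subst hρ
    by_cases hτ0 : τ = []
    · subst hτ0
      exact ⟨0, n + m' + 1, Sum.inr A :: α, by omega, D_refl _, D.r1 hτ hA h1 h1'⟩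
    · obtain ⟨m₁, l₁, ψ₁, a1, a2, a3⟩ := ih τ σ rfl
      obtain ⟨m₂, l₂, ψ₂, b1, b2, b3⟩ := ih' τ σ rfl
      exact ⟨m₁ + m₂ + 1, l₁ + l₂, ψ₁ ++ ψ₂, by omega, D.r1 hτ0 hA a2 b2, D_append a3 b3⟩
  | @r2 n m' A B f α ρ φ φ' hτ hA h1 h1' ih ih' =>
    intro τ σ hρ
    subst hρ
    by_cases hτ0 : τ = []
    · subst hτ0
      exact ⟨0, n + m' + 1, Sum.inr A :: α, by omega, D_refl _, D.r2 hτ hA h1 h1'⟩
    · obtain ⟨m₁, l₁, ψ₁, a1, a2, a3⟩ := ih (f :: τ) σ rfl
      obtain ⟨m₂, l₂, ψ₂, b1, b2, b3⟩ := ih' τ σ rfl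
      exact ⟨m₁ + m₂ + 1, l₁ + l₂, ψ₁ ++ ψ₂, by omega, D.r2 hτ0 hA a2 b2, D_append a3 b3⟩
  | @r3 n m' A f γ α ρ φ φ' hA h1 h1' ih ih' =>
    intro τ σ hρ
    cases τ with
    | nil =>
      simp only [List.nil_append] at hρ
      subst hρ
      exact ⟨0, n + m' + 1, Sum.inr A :: α, by omega, D_refl _, D.r3 hA h1 h1'⟩
    | cons g τ =>
      simp only [List.cons_append, List.cons.injEq] at hρ
      obtain ⟨rfl, rfl⟩ := hρ
      obtain ⟨m₁, l₁, ψ₁, a1, a2, a3⟩ := ih τ σ rfl
      obtain ⟨m₂, l₂, ψ₂, b1, b2, b3⟩ := ih' (f :: τ) σ rfl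
      exact ⟨m₁ + m₂ + 1, l₁ + l₂, ψ₁ ++ ψ₂, by omega, D.r3 hA a2 b2, D_append a3 b3⟩

/-- stack lemma, composition -/
theorem D_comp {n : ℕ} {α : List (T ⊕ Γ.N)} {τ : List Γ.F} {ψ : List (T ⊕ Γ.N)}
    (h : D Γ n α τ ψ) : ∀ {m : ℕ} {σ : List Γ.F} {φ : List (T ⊕ Γ.N)}, D Γ m ψ σ φ →
      D Γ (n + m) α (τ ++ σ) φ := by
  induction h with
  | nil τ =>
    intro m σ φ h2
    obtain ⟨rfl, rfl⟩ := D_nil h2
    exact D.nil _
  | term t _ ih =>
    intro m σ φ h2
    obtain ⟨χ, rfl, h3⟩ := D_term_inv h2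
    exact D.term t (ih h3)
  | @ret n A α φ _ ih =>
    intro m σ φ h2
    obtain ⟨n₁, n₂, φ₁, φ₂, e, rfl, h3, h4⟩ := D_cons_inv h2
    have h5 := ih h4
    simp only [List.nil_append] at h5 ⊢
    have h6 := D_append h3 h5
    simp only [List.singleton_append] at h6
    have e' : n₁ + (n + n₂) = n + m := by omega
    rw [e'] at h6
    exact h6
  | @r1 n m' A γ α τ φ φ' hτ hA h1 h1' ih ih' =>
    intro m σ χ h2
    obtain ⟨n₁, n₂, φ₁, φ₂, e, rfl, h3, h4⟩ := D_split h2
    have h5 := D.r1 (τ := τ ++ σ) (by simp [hτ]) hA (ih h3) (ih' h4)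
    have e' : n + n₁ + (m' + n₂) + 1 = n + m' + 1 + m := by omega
    rw [e'] at h5
    exact h5
  | @r2 n m' A B f α τ φ φ' hτ hA h1 h1' ih ih' =>
    intro m σ χ h2
    obtain ⟨n₁, n₂, φ₁, φ₂, e, rfl, h3, h4⟩ := D_split h2
    have h5 := D.r2 (τ := τ ++ σ) (by simp [hτ]) hA (ih h3) (ih' h4)
    have e' : n + n₁ + (m' + n₂) + 1 = n + m' + 1 + m := by omega
    rw [e'] at h5
    exact h5
  | @r3 n m' A f γ α τ φ φ' hA h1 h1' ih ih' =>
    intro m σ χ h2
    obtain ⟨n₁, n₂, φ₁, φ₂, e, rfl, h3, h4⟩ := D_split h2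
    have h5 := D.r3 (τ := τ ++ σ) hA (ih h3) (ih' h4)
    have e' : n + n₁ + (m' + n₂) + 1 = n + m' + 1 + m := by omega
    rw [e'] at h5
    exact h5

/-! ## Items -/

@[simp] theorem flat_nil : flat ([] : List (Item Γ)) = [] := rfl
@[simp] theorem flat_cons (x : Item Γ) (c : List (Item Γ)) : flat (x :: c) = iword x ++ flat c := by
  simp [flat]
@[simp] theorem flat_append (c d : List (Item Γ)) : flat (c ++ d) = flat c ++ flat d := by
  simp [flat]
@[simp] theorem form_nil : form ([] : List (Item Γ)) = [] := rfl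
@[simp] theorem form_cons (x : Item Γ) (c : List (Item Γ)) : form (x :: c) = isym x :: form c := by
  simp [form]
@[simp] theorem form_append (c d : List (Item Γ)) : form (c ++ d) = form c ++ form d := by
  simp [form]
@[simp] theorem mask_nil : mask ([] : List (Item Γ)) = [] := rfl
@[simp] theorem mask_cons (x : Item Γ) (c : List (Item Γ)) : mask (x :: c) = imask x ++ mask c := by
  simp [mask]
@[simp] theorem mask_append (c d : List (Item Γ)) : mask (c ++ d) = mask c ++ mask d := by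
  simp [mask]

theorem imask_length (x : Item Γ) : (imask x).length = (iword x).length := by
  rcases x with t | ⟨A, u, b⟩ <;> simp [imask, iword]

theorem mask_length (c : List (Item Γ)) : (mask c).length = (flat c).length := by
  induction c with
  | nil => rfl
  | cons x c ih => simp [imask_length, ih]

theorem holes_append (c d : List (Item Γ)) (s : ℕ) :
    holes s (c ++ d) = holes s c ++ holes (s + (flat c).length) d := by
  induction c generalizing s with
  | nil => simp [holes]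
  | cons x c ih =>
    rcases x with t | ⟨A, u, b⟩
    · simp [holes, ih, iword, Nat.add_assoc, Nat.add_comm 1]
    · cases b <;> simp [holes, ih, iword, Nat.add_assoc]

theorem Flags_append (Big : ℕ → ℕ → Prop) (c d : List (Item Γ)) (s : ℕ) :
    Flags Big s (c ++ d) ↔ Flags Big s c ∧ Flags Big (s + (flat c).length) d := by
  induction c generalizing s with
  | nil => simp [Flags]
  | cons x c ih =>
    rcases x with t | ⟨A, u, b⟩
    · simp [Flags, ih, iword, Nat.add_assoc, Nat.add_comm 1]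
    · simp [Flags, ih, iword, Nat.add_assoc, and_assoc]

theorem msum_append (μ : ℕ → ℝ) (M M' : List Bool) (s : ℕ) :
    msum μ s (M ++ M') = msum μ s M + msum μ (s + M.length) M' := by
  induction M generalizing s with
  | nil => simp [msum]
  | cons b M ih => simp [msum, ih, Nat.add_comm 1, add_assoc]

theorem msum_replicate_false (μ : ℕ → ℝ) (n s : ℕ) : msum μ s (List.replicate n false) = 0 := by
  induction n generalizing s with
  | zero => simp [msum]
  | succ n ih => simp [List.replicate_succ, msum, ih]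

theorem msum_replicate_true (μ : ℕ → ℝ) (n s : ℕ) :
    msum μ s (List.replicate n true) = ∑ j ∈ Finset.Ico s (s + n), μ j := by
  induction n generalizing s with
  | zero => simp [msum]
  | succ n ih =>
    rw [List.replicate_succ, msum, ih, if_pos rfl,
      Finset.sum_eq_sum_Ico_succ_bot (show s < s + (n + 1) by omega),
      show s + 1 + n = s + (n + 1) by omega]

theorem msum_nonneg (μ : ℕ → ℝ) (hμ : ∀ j, 0 ≤ μ j) (M : List Bool) (s : ℕ) :
    0 ≤ msum μ s M := by
  induction M generalizing s with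
  | nil => simp [msum]
  | cons b M ih =>
    rw [msum]
    have := ih (s + 1)
    split_ifs
    · linarith [hμ s]
    · linarith

/-- the mask of holes removed: at most the sum over the whole interval -/
theorem msum_le (μ : ℕ → ℝ) (hμ : ∀ j, 0 ≤ μ j) (M : List Bool) (s : ℕ) :
    msum μ s M ≤ ∑ j ∈ Finset.Ico s (s + M.length), μ j := by
  induction M generalizing s with
  | nil => simp [msum]
  | cons b M ih =>
    have h1 := ih (s + 1)
    have h2 : ∑ j ∈ Finset.Ico s (s + (b :: M).length), μ j =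
        μ s + ∑ j ∈ Finset.Ico (s + 1) (s + 1 + M.length), μ j := by
      rw [Finset.sum_eq_sum_Ico_succ_bot (show s < s + (b :: M).length by simp),
        show s + (b :: M).length = s + 1 + M.length by simp only [List.length_cons]; omega]
    rw [msum, h2]
    split_ifs
    · linarith
    · linarith [hμ s]

theorem kv_append (v : T → ℤ) (c d : List (Item Γ)) : kv v (c ++ d) = kv v c + kv v d := by
  induction c with
  | nil => simp [kv]
  | cons x c ih =>
    rcases x with t | ⟨A, u, b⟩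
    · simp [kv, ih, add_assoc]
    · cases b <;> simp [kv, ih, add_assoc]

theorem vs_append (v : T → ℤ) (w w' : List T) : vs v (w ++ w') = vs v w + vs v w' := by
  simp [vs]

theorem val_append {G : Type} [Group G] (ev : T → G) (w w' : List T) :
    val ev (w ++ w') = val ev w * val ev w' := by
  simp [val]

@[simp] theorem val_nil {G : Type} [Group G] (ev : T → G) : val ev ([] : List T) = 1 := by
  simp [val]

theorem Fill_append (σ : List Γ.F) (c d : List (Item Γ)) :
    Fill σ (c ++ d) ↔ Fill σ c ∧ Fill σ d := by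
  constructor
  · intro h
    exact ⟨fun A u b hm => h A u b (List.mem_append_left _ hm),
      fun A u b hm => h A u b (List.mem_append_right _ hm)⟩
  · rintro ⟨h1, h2⟩ A u b hm
    rcases List.mem_append.1 hm with hm | hm
    · exact h1 A u b hm
    · exact h2 A u b hm

theorem Fill_tail {σ : List Γ.F} {x : Item Γ} {c : List (Item Γ)} (h : Fill σ (x :: c)) :
    Fill σ c := fun A u b hm => h A u b (List.mem_cons_of_mem _ hm)

/-- the words of the items are derived together -/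
theorem D_of_Fill {σ : List Γ.F} {c : List (Item Γ)} (h : Fill σ c) :
    ∃ l, D Γ l (form c) σ ((flat c).map Sum.inl) := by
  induction c with
  | nil => exact ⟨0, D.nil _⟩
  | cons x c ih =>
    obtain ⟨l, hl⟩ := ih (Fill_tail h)
    rcases x with t | ⟨A, u, b⟩
    · exact ⟨l, by simpa [isym, iword] using D.term t hl⟩
    · obtain ⟨n, hn⟩ := h A u b (List.mem_cons_self)
      have := D_append hn hl
      exact ⟨n + l, by simpa [isym, iword] using this⟩

/-- substitution: a derived form whose nonterminals are filled gives a word -/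
theorem Lang_of_Fill {n : ℕ} {A : Γ.N} {τ σ : List Γ.F} {c : List (Item Γ)}
    (h : D Γ n [Sum.inr A] τ (form c)) (hF : Fill σ c) : flat c ∈ Lang Γ A (τ ++ σ) := by
  obtain ⟨l, hl⟩ := D_of_Fill hF
  exact ⟨n + l, D_comp h hl⟩

/-- the pieces of an annotated form along the symbols from which it is derived -/
theorem D_pieces {α : List (T ⊕ Γ.N)} {τ : List Γ.F} : ∀ {n : ℕ} {c : List (Item Γ)},
    D Γ n α τ (form c) → ∃ ps : List (List (Item Γ)), c = ps.flatten ∧
      List.Forall₂ (fun (s : T ⊕ Γ.N) (p : List (Item Γ)) =>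
        (∀ t, s = Sum.inl t → p = [Sum.inl t]) ∧
        (∀ E, s = Sum.inr E → ∃ m ≤ n, D Γ m [Sum.inr E] τ (form p))) α ps := by
  induction α with
  | nil =>
    intro n c h
    obtain ⟨rfl, h0⟩ := D_nil h
    have hc : c = [] := List.map_eq_nil_iff.1 h0
    exact ⟨[], by simp [hc], List.Forall₂.nil⟩
  | cons a α ih =>
    intro n c h
    cases a with
    | inl t =>
      obtain ⟨ψ, hψ, h'⟩ := D_term_inv h
      cases c with
      | nil => simp at hψ
      | cons x c =>
        simp only [form_cons, List.cons.injEq] at hψ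
        obtain ⟨hx, rfl⟩ := hψ
        obtain ⟨ps, hps, hF⟩ := ih h'
        rcases x with t' | ⟨A, u, b⟩
        · simp only [isym, Sum.inl.injEq] at hx
          subst hx
          refine ⟨[Sum.inl t'] :: ps, by simp [hps], List.Forall₂.cons ⟨?_, ?_⟩ hF⟩
          · intro t ht
            simp only [Sum.inl.injEq] at ht
            rw [ht]
          · intro E hE
            exact absurd hE (by simp)
        · simp [isym] at hx
    | inr A =>
      obtain ⟨n₁, n₂, φ₁, φ₂, e, hφ, h3, h4⟩ := D_cons_inv h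
      obtain ⟨c₁, c₂, rfl, h5, h6⟩ := List.map_eq_append_iff.1 hφ
      have h5' : form c₁ = φ₁ := h5
      have h6' : form c₂ = φ₂ := h6
      subst h5' h6'
      obtain ⟨ps, hps, hF⟩ := ih h4
      refine ⟨c₁ :: ps, by simp [hps], List.Forall₂.cons ⟨?_, ?_⟩ ?_⟩
      · intro t ht
        exact absurd ht (by simp)
      · intro E hE
        simp only [Sum.inr.injEq] at hE
        subst hE
        exact ⟨n₁, by omega, h3⟩
      · refine hF.imp ?_
        rintro s p ⟨ha, hb⟩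
        refine ⟨ha, fun E hE => ?_⟩
        obtain ⟨m, hm, hD⟩ := hb E hE
        exact ⟨m, by omega, hD⟩

/-- every item of a filled annotated form can be replaced by another word of its language -/
theorem Fill_replace {σ : List Γ.F} {c d : List (Item Γ)} {E : Γ.N} {u u' : List T} {b : Bool}
    (h : Fill σ (c ++ Sum.inr (E, u, b) :: d)) (hu : u' ∈ Lang Γ E σ) :
    Fill σ (c ++ Sum.inr (E, u', b) :: d) := by
  intro A w b' hm
  rcases List.mem_append.1 hm with hm | hm
  · exact h A w b' (List.mem_append_left _ hm)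
  · rcases List.mem_cons.1 hm with hm | hm
    · simp only [Sum.inr.injEq, Prod.mk.injEq] at hm
      obtain ⟨rfl, rfl, rfl⟩ := hm
      exact hu
    · exact h A w b' (List.mem_append_right _ (List.mem_cons_of_mem _ hm))

end Pool.Agent.Idx
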