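import Pool.Agent.Helper4_Idx.Frame
import Pool.Agent.Helper4_Idx.Fchi
import Pool.Agent.Helper9_Idx.Fcnt
import Pool.Agent.Helper9_Idx.Fexp
import Pool.Agent.Helper15_Idx.One
import Pool.Agent.Helper18_Idx.Bhol
import Pool.Agent.Helper18_Idx.Clos
import Pool.Agent.Helper48_Idx.Norm
import Pool.Agent.Helper48_Idx.Rep
import Pool.Agent.Helper56_Idx.Mix
import Pool.Agent.Helper69_Idx.Pig
import Pool.Agent.Helper69_Idx.Tiny
import Pool.Agent.Helper75_Idx.Bal
import Pool.Agent.Helper75_Idx.Uniq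
import Pool.Agent.Helper85_Idx.Sgl
import Pool.Agent.Helper85_Idx.Fin

set_option autoImplicit false

namespace Pool.Agent.Idx.H85

/-- the frame theorem -/
theorem frameFull : FrameStmt :=
  H4.frame (H75B.bal H18.bhol) H48.rep sgl H56.mix (H75.uniq H15.one) H69T.tiny H69.pig H4.fchi
    H9.fcnt H9.fexp

end Pool.Agent.Idx.H85
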