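import Pool.Agent.Helper85_Idx.Stmts

set_option autoImplicit false

namespace Pool.Agent.Idx.H85

theorem tree (h1 : TfdStmt) (h2 : TcnStmt) : TreeStmt := by
  intro S R Dc C p hR hp
  obtain ⟨d₁, hd₁⟩ := h1 S R p hR hp
  obtain ⟨d₂, hd₂⟩ := h2 S R Dc C p hR hp
  obtain ⟨K, hK⟩ := hd₁ (max d₁ d₂) (le_max_left _ _)
  refine ⟨K, _, _, inferInstance, _, _, hK, ?_⟩
  intro l hl
  exact hd₂ (max d₁ d₂) (le_max_right _ _) l hl

end Pool.Agent.Idx.H85
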