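import Pool.Agent.Helper85_Idx.AsmF
import Pool.Agent.Helper85_Idx.TreeAsm
import Pool.Agent.Helper4_Idx.Fcl
import Pool.Agent.Helper9_Idx.Tdis
import Pool.Agent.Helper9_Idx.Tsum
import Pool.Agent.Helper15_Idx.Tfd
import Pool.Agent.Helper21_Idx.Stat
import Pool.Agent.Helper21_Idx.Tcn
import Pool.Agent.Helper56_Idx.Tred
import Pool.Agent.Helper72_Idx.Ftb
import Pool.Agent.Helper72_Idx.Tnod
import Pool.Agent.Helper90_Idx.Comp
import Pool.Agent.Helper90_Idx.Ftw

set_option autoImplicit false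

namespace Pool.Agent.Idx.H85

/-- the forests of case I -/
theorem treeFull : TreeStmt :=
  tree (H15.tfd H90.ftw H90.fval H4.fcl H72.ftb H9.tsum H72.tnod H9.tdis)
    (H21.tcn H21.stat H90.comp H56.tred H9.tsum)

end Pool.Agent.Idx.H85
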