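import Pool.Agent.Helper85_Idx.Stmts

set_option autoImplicit false

namespace Pool.Agent.Idx.H85

theorem segw_length (S : Setup) {V : Type} {m : ℕ} (h : V → Fin m → Bool) (x : Seg V S.T) :
    (segw S h x).length = slen S m x := by
  rcases x with ⟨e, b⟩ | u
  · cases b <;> simp [segw, slen]
  · simp [segw, slen]

theorem word_length (S : Setup) {V : Type} {m : ℕ} (h : V → Fin m → Bool)
    (segs : List (Seg V S.T)) :
    (word S h segs).length = start S m segs segs.length := by
  simp only [word, start, List.take_length, List.length_flatten, List.map_map]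
  congr 1
  refine List.map_congr_left ?_
  intro x _
  exact segw_length S h x

theorem matr (h1 : MtwiStmt) (h2 : MvalStmt) (h3 : McldStmt) (h4 : MtinStmt) (h5 : MconStmt) :
    MatrStmt := by
  intro S hS R Dc C p hR hp
  set m₀ : ℕ := 2 * R * Dc + 8 * R with hm₀
  have hm1 : 1 ≤ m₀ := by omega
  have hwl : ∀ (m : ℕ) (h : Fin m₀ × Fin m₀ → Fin m → Bool),
      (word S h (mseg S m₀ m)).length = 4 * m₀ ^ 2 * m := by
    intro m h
    rw [word_length, (h1 S m₀ m).2.2]
  have hm8 : 8 * R ≤ m₀ := by omega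
  have hm8' : (8 : ℝ) * R ≤ m₀ := by exact_mod_cast hm8
  have hR' : (1 : ℝ) ≤ R := by exact_mod_cast hR
  have hsq : (8 : ℝ) * R ≤ (m₀ : ℝ) ^ 2 := by nlinarith
  refine ⟨4 * m₀ ^ 2 * p, 1, Fin m₀ × Fin m₀, inferInstance, fun l => mseg S m₀ (p * l),
    fun l _ j => mmu m₀ (p * l) j, ?_, ?_⟩
  · refine ⟨fun l => (h1 S m₀ (p * l)).1, fun l h => h2 S hS m₀ (p * l) h, ?_, ?_, ?_, ?_, ?_,
      ?_, ?_, ?_, ?_, le_refl 1, ?_⟩
    · intro l
      rw [(h1 S m₀ (p * l)).2.2]
      nlinarith [Nat.zero_le (4 * m₀ ^ 2 * p)]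
    · intro l
      rw [(h1 S m₀ (p * l)).2.1]
      nlinarith [Nat.zero_le (4 * m₀ ^ 2)]
    · intro l hl
      exact h3 S m₀ p l hp hl
    · intro l h j
      simp only [mmu]
      split_ifs
      · positivity
      · exact le_refl 0
    · intro l h hl
      rw [hwl]
      exact (h4 S m₀ p l hm1 hp hl).1
    · intro l h s t hl hst ht hb
      rw [hwl] at ht
      have h6 := (h4 S m₀ p l hm1 hp hl).2 s t hst ht hb
      have h7 : 0 ≤ ∑ j ∈ Finset.Ico s t, mmu m₀ (p * l) j := by
        refine Finset.sum_nonneg fun j _ => ?_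
        simp only [mmu]
        split_ifs
        · positivity
        · exact le_refl 0
      have hp' : (1 : ℝ) ≤ p := by exact_mod_cast hp
      have h8 : (8 : ℝ) * R ≤ (m₀ : ℝ) ^ 2 * p := by nlinarith
      nlinarith
    · intro l h j hl
      have hpl : 1 ≤ p * l := Nat.one_le_iff_ne_zero.2 (by positivity)
      have hpl' : (1 : ℝ) ≤ ((p * l : ℕ) : ℝ) := by exact_mod_cast hpl
      simp only [mmu]
      split_ifs
      · rw [div_mul_eq_mul_div, one_mul, div_le_one (by positivity)]
        nlinarith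
      · simp
    · intro t
      simp
    · intro w w' _
      simp [vs]
    · intro l h s t _ _ _ _
      simp [vs]
  · rintro l hl ⟨h, χ, hc, hm, hm', hmm, -⟩
    rw [hwl] at hc hm hm'
    have hpl : 1 ≤ p * l := Nat.one_le_iff_ne_zero.2 (by positivity)
    have h9 := h5 S m₀ (p * l) Dc R χ hpl hR (by omega) hc hmm hm'
    linarith

end Pool.Agent.Idx.H85
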