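import Pool.Agent.Helper70_Idx.Mat
import Pool.Agent.Helper85_Idx.Basic

/-!
# Modules MTWI and MVAL: the matrix words
-/

set_option autoImplicit false

namespace Pool.Agent.Idx.H85

open Pool.Agent.Idx

theorem lrow_nodup (m₀ : ℕ) : (H70.lrow m₀).Nodup := by
  unfold H70.lrow
  rw [List.nodup_flatMap]
  constructor
  · intro i _
    exact (List.nodup_finRange m₀).map (fun a b h => by simpa using h)
  · refine (List.nodup_finRange m₀).imp ?_
    intro a b hab
    rw [Function.onFun, List.disjoint_left]
    intro x hx hx'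
    simp only [List.mem_map, List.mem_finRange, true_and] at hx hx'
    obtain ⟨j, rfl⟩ := hx
    obtain ⟨j', h⟩ := hx'
    simp only [Prod.mk.injEq] at h
    exact hab h.1.symm

theorem lcol_nodup (m₀ : ℕ) : (H70.lcol m₀).Nodup := by
  unfold H70.lcol
  rw [List.nodup_flatMap]
  constructor
  · intro i _
    exact ((List.nodup_reverse.2 (List.nodup_finRange m₀))).map (fun a b h => by simpa using h)
  · refine (List.nodup_reverse.2 (List.nodup_finRange m₀)).imp ?_
    intro a b hab
    rw [Function.onFun, List.disjoint_left]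
    intro x hx hx'
    simp only [List.mem_map, List.mem_reverse, List.mem_finRange, true_and] at hx hx'
    obtain ⟨j, rfl⟩ := hx
    obtain ⟨j', h⟩ := hx'
    simp only [Prod.mk.injEq] at h
    exact hab h.2.symm

theorem row_pos {S : Setup} {m₀ m i : ℕ} {e : Fin m₀ × Fin m₀}
    (h : (mseg S m₀ m)[i]? = some (Seg.pay e false)) :
    ∃ k, i = 2 * k ∧ (H70.lrow m₀)[k]? = some e := by
  have h1 := H70.pay_false h
  unfold mseg at h
  rw [List.getElem?_append_left (by rw [H70.mrow_len]; exact h1), H70.mrow_eq] at h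
  rcases Nat.even_or_odd' i with ⟨k, rfl | rfl⟩
  · rw [(H70.fm_get _ _ _ k).1] at h
    refine ⟨k, rfl, ?_⟩
    simp only [Option.map_eq_some_iff, Seg.pay.injEq, and_true] at h
    obtain ⟨a, ha, rfl⟩ := h
    exact ha
  · rw [(H70.fm_get _ _ _ k).2] at h
    simp at h

theorem col_pos {S : Setup} {m₀ m i : ℕ} {e : Fin m₀ × Fin m₀}
    (h : (mseg S m₀ m)[i]? = some (Seg.pay e true)) :
    ∃ k, i = 2 * m₀ ^ 2 + (2 * k + 1) ∧ (H70.lcol m₀)[k]? = some e := by
  have h1 := H70.pay_true h
  unfold mseg at h
  rw [List.getElem?_append_right (by rw [H70.mrow_len]; exact h1.1), H70.mrow_len,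
    H70.mcol_eq] at h
  rcases Nat.even_or_odd' (i - 2 * m₀ ^ 2) with ⟨k, hk | hk⟩
  · rw [hk, (H70.fm_get _ _ _ k).1] at h
    simp at h
  · rw [hk, (H70.fm_get _ _ _ k).2] at h
    refine ⟨k, by omega, ?_⟩
    simp only [Option.map_eq_some_iff, Seg.pay.injEq, and_true] at h
    obtain ⟨a, ha, rfl⟩ := h
    exact ha

theorem nodup_get {α : Type} {L : List α} (hL : L.Nodup) {k k' : ℕ} {e : α}
    (h : L[k]? = some e) (h' : L[k']? = some e) : k = k' := by
  obtain ⟨hk, h1⟩ := List.getElem?_eq_some_iff.1 h
  obtain ⟨hk', h2⟩ := List.getElem?_eq_some_iff.1 h'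
  exact (hL.getElem_inj_iff (hi := hk) (hj := hk')).1 (h1.trans h2.symm)

theorem mtwi : MtwiStmt := by
  intro S m₀ m
  refine ⟨⟨?_, ?_⟩, H70.mseg_len S m₀ m, ?_⟩
  · intro i i' e b h h'
    cases b
    · obtain ⟨k, rfl, hk⟩ := row_pos h
      obtain ⟨k', rfl, hk'⟩ := row_pos h'
      rw [nodup_get (lrow_nodup m₀) hk hk']
    · obtain ⟨k, rfl, hk⟩ := col_pos h
      obtain ⟨k', rfl, hk'⟩ := col_pos h'
      rw [nodup_get (lcol_nodup m₀) hk hk']
  · intro i e b _
    exact H70.ex_pay S m₀ m e (!b)
  · rw [H70.mseg_len, H70.start_mseg S m₀ m _ le_rfl]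

theorem val_map_ni (S : Setup) (w : List Bool) :
    val S.ev (w.map S.ni).reverse = (val S.ev (w.map S.pl))⁻¹ := by
  induction w with
  | nil => simp
  | cons x w ih =>
    rw [List.map_cons, List.reverse_cons, val_append, ih, List.map_cons]
    simp [val, S.inv]

theorem word_append (S : Setup) {V : Type} {m : ℕ} (h : V → Fin m → Bool)
    (a b : List (Seg V S.T)) : word S h (a ++ b) = word S h a ++ word S h b := by
  simp [word]

/-- the commuting elements -/
def uel (S : Setup) {V : Type} {m : ℕ} (h : V → Fin m → Bool) (e : V) : S.H :=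
  val S.ev ((List.ofFn (h e)).map S.pl) * (S.ev (S.pl true))⁻¹ ^ m

theorem val_row (S : Setup) {V : Type} {m : ℕ} (h : V → Fin m → Bool) (L : List V) :
    val S.ev (word S h (L.flatMap
      (fun e => [Seg.pay e false, Seg.con (List.replicate m (S.ni true))]))) =
      (L.map (uel S h)).prod := by
  induction L with
  | nil => simp [word]
  | cons e L ih =>
    rw [List.flatMap_cons, word_append, val_append, ih, List.map_cons, List.prod_cons]
    congr 1
    simp [word, segw, val_append, uel, val, S.inv]

theorem val_col (S : Setup) {V : Type} {m : ℕ} (h : V → Fin m → Bool) (L : List V) :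
    val S.ev (word S h (L.flatMap
      (fun e => [Seg.con (List.replicate m (S.pl true)), Seg.pay e true]))) =
      (L.map (fun e => (uel S h e)⁻¹)).prod := by
  induction L with
  | nil => simp [word]
  | cons e L ih =>
    rw [List.flatMap_cons, word_append, val_append, ih, List.map_cons, List.prod_cons]
    congr 1
    have h1 : word S h [Seg.con (List.replicate m (S.pl true)), Seg.pay e true] =
        List.replicate m (S.pl true) ++ ((List.ofFn (h e)).map S.ni).reverse := by
      simp [word, segw]
    rw [h1, val_append, val_map_ni]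
    simp [uel, val]

theorem mval : MvalStmt := by
  intro S hS m₀ m h
  unfold mseg
  rw [word_append, val_append, H70.mrow_eq, H70.mcol_eq, val_row, val_col]
  have hcomm : ∀ e e', Commute (uel S h e) (uel S h e') := by
    intro e e'
    have h1 := hS (List.ofFn (h e)) (List.ofFn (h e'))
    simpa [uel] using h1
  have hperm : (H70.lcol m₀).reverse.Perm (H70.lrow m₀) := by
    rw [List.perm_ext_iff_of_nodup (List.nodup_reverse.2 (lcol_nodup m₀)) (lrow_nodup m₀)]
    intro e
    simp [H70.mem_lrow, H70.mem_lcol]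
  have h2 : ((H70.lcol m₀).map (fun e => (uel S h e)⁻¹)).prod =
      (((H70.lcol m₀).reverse.map (uel S h)).prod)⁻¹ := by
    rw [List.prod_inv_reverse, List.map_reverse, List.map_reverse, List.reverse_reverse,
      List.map_map]
    rfl
  have h3 : ((H70.lcol m₀).reverse.map (uel S h)).prod = ((H70.lrow m₀).map (uel S h)).prod := by
    refine (hperm.map _).prod_eq' ?_
    rw [List.pairwise_map]
    exact List.pairwise_of_forall (fun a b => hcomm a b)
  rw [h2, h3, mul_inv_cancel]

end Pool.Agent.Idx.H85
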