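import Pool.Agent.Helper85_Idx.AsmF
import Pool.Agent.Helper85_Idx.MatrAsm
import Pool.Agent.Helper85_Idx.Mtw
import Pool.Agent.Helper90_Idx.Mcon

set_option autoImplicit false

namespace Pool.Agent.Idx.H85

/-- the matrix words of case II -/
theorem matrFull : MatrStmt := matr mtwi mval H70.mcld H70.mtin H90.mcon

end Pool.Agent.Idx.H85
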