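import Mathlib

/-!
# Indexed grammars and word problems: definitions

Problem MP_429423_al. Framework for the theorem that a direct product of a group containing a
free submonoid of rank two with the infinite cyclic group has a word problem that is not indexed.
-/

set_option autoImplicit false

namespace Pool.Agent.Idx

/-- One derivation step of an indexed grammar in the form of Aho: `R₁` holds the productions
`A → α` (the stack is copied to all nonterminals of `α`), `R₂` the productions `A → B f`
(push `f`), and `R₃` the productions `A f → α` (pop `f`). -/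
def Step {T N Fl : Type} (R₁ : Set (N × List (T ⊕ N))) (R₂ : Set (N × N × Fl))
    (R₃ : Set (N × Fl × List (T ⊕ N))) (u v : List (T ⊕ (N × List Fl))) : Prop :=
  ∃ (p q : List (T ⊕ (N × List Fl))) (A : N) (l : List Fl),
    (∃ α : List (T ⊕ N), (A, α) ∈ R₁ ∧ u = p ++ Sum.inr (A, l) :: q ∧
      v = p ++ α.map (Sum.map id (fun B => (B, l))) ++ q) ∨
    (∃ (B : N) (f : Fl), (A, B, f) ∈ R₂ ∧ u = p ++ Sum.inr (A, l) :: q ∧
      v = p ++ Sum.inr (B, f :: l) :: q) ∨
    (∃ (f : Fl) (α : List (T ⊕ N)), (A, f, α) ∈ R₃ ∧ u = p ++ Sum.inr (A, f :: l) :: q ∧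
      v = p ++ α.map (Sum.map id (fun B => (B, l))) ++ q)

/-- A language is indexed if some indexed grammar (finitely many productions) generates it. -/
def IsIndexed {T : Type} (L : Set (List T)) : Prop :=
  ∃ (N Fl : Type) (S : N) (R₁ : Set (N × List (T ⊕ N))) (R₂ : Set (N × N × Fl))
    (R₃ : Set (N × Fl × List (T ⊕ N))), R₁.Finite ∧ R₂.Finite ∧ R₃.Finite ∧
    ∀ w : List T, (w ∈ L ↔ Relation.ReflTransGen (Step R₁ R₂ R₃) [Sum.inr (S, [])]
      (w.map Sum.inl))

/-- The word problem of a group with respect to a family `g` of elements: all words in the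
letters of the family and their inverses whose value is `1`. -/
def WP {G : Type} [Group G] {ι : Type} (g : ι → G) : Set (List (ι ⊕ ι)) :=
  {w | (w.map (Sum.elim g (fun i => (g i)⁻¹))).prod = 1}

/-! ## Normalised grammars -/

/-- Normalised grammar: finitely many nonterminals and flags, a bottom flag that is never popped;
derivations start from `S` with stack `[bot]`. -/
structure Gram (T : Type) where
  N : Type
  F : Type
  finN : Finite N
  finF : Finite F
  S : N
  bot : F
  R1 : Set (N × List (T ⊕ N))
  R2 : Set (N × N × F)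
  R3 : Set (N × F × List (T ⊕ N))
  fin1 : R1.Finite
  fin3 : R3.Finite
  nobot : ∀ A α, (A, bot, α) ∉ R3

/-- `D Γ n α τ φ`: the symbols `α`, every nonterminal carrying the stack `τ` (on top of an
unspecified rest which is never inspected), derive the form `φ` with `n` rule applications; the
nonterminals of `φ` are those whose part `τ` of the stack has been popped completely. -/
inductive D {T : Type} (Γ : Gram T) :
    ℕ → List (T ⊕ Γ.N) → List Γ.F → List (T ⊕ Γ.N) → Prop
  | nil (τ : List Γ.F) : D Γ 0 [] τ []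
  | term {n : ℕ} (t : T) {α : List (T ⊕ Γ.N)} {τ : List Γ.F} {φ : List (T ⊕ Γ.N)} :
      D Γ n α τ φ → D Γ n (Sum.inl t :: α) τ (Sum.inl t :: φ)
  | ret {n : ℕ} (A : Γ.N) {α φ : List (T ⊕ Γ.N)} :
      D Γ n α [] φ → D Γ n (Sum.inr A :: α) [] (Sum.inr A :: φ)
  | r1 {n m : ℕ} {A : Γ.N} {β α : List (T ⊕ Γ.N)} {τ : List Γ.F} {φ ψ : List (T ⊕ Γ.N)} :
      τ ≠ [] → (A, β) ∈ Γ.R1 → D Γ n β τ φ → D Γ m α τ ψ →
      D Γ (n + m + 1) (Sum.inr A :: α) τ (φ ++ ψ)
  | r2 {n m : ℕ} {A B : Γ.N} {f : Γ.F} {α : List (T ⊕ Γ.N)} {τ : List Γ.F}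
      {φ ψ : List (T ⊕ Γ.N)} :
      τ ≠ [] → (A, B, f) ∈ Γ.R2 → D Γ n [Sum.inr B] (f :: τ) φ → D Γ m α τ ψ →
      D Γ (n + m + 1) (Sum.inr A :: α) τ (φ ++ ψ)
  | r3 {n m : ℕ} {A : Γ.N} {f : Γ.F} {β α : List (T ⊕ Γ.N)} {τ : List Γ.F}
      {φ ψ : List (T ⊕ Γ.N)} :
      (A, f, β) ∈ Γ.R3 → D Γ n β τ φ → D Γ m α (f :: τ) ψ →
      D Γ (n + m + 1) (Sum.inr A :: α) (f :: τ) (φ ++ ψ)

/-- Words derived from the nonterminal `A` with stack `σ`. -/
def Lang {T : Type} (Γ : Gram T) (A : Γ.N) (σ : List Γ.F) : Set (List T) :=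
  {w | ∃ n, D Γ n [Sum.inr A] σ (w.map Sum.inl)}

/-- An item of an annotated form: a letter, or a nonterminal together with the word that it
derives and a mark (`true` for holes). -/
abbrev Item {T : Type} (Γ : Gram T) : Type := T ⊕ (Γ.N × List T × Bool)

section Items

variable {T : Type} {Γ : Gram T}

/-- the word of an item -/
def iword : Item Γ → List T
  | Sum.inl t => [t]
  | Sum.inr x => x.2.1

/-- the symbol of an item -/
def isym : Item Γ → T ⊕ Γ.N
  | Sum.inl t => Sum.inl t
  | Sum.inr x => Sum.inr x.1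

/-- the mask of an item: `false` on holes, `true` elsewhere -/
def imask : Item Γ → List Bool
  | Sum.inl _ => [true]
  | Sum.inr x => List.replicate x.2.1.length (!x.2.2)

/-- the word of an annotated form -/
def flat (c : List (Item Γ)) : List T := (c.map iword).flatten

/-- the underlying form -/
def form (c : List (Item Γ)) : List (T ⊕ Γ.N) := c.map isym

/-- the mask of an annotated form -/
def mask (c : List (Item Γ)) : List Bool := (c.map imask).flatten

/-- the holes of an annotated form with their start position, nonterminal and word -/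
def holes : ℕ → List (Item Γ) → List (ℕ × Γ.N × List T)
  | _, [] => []
  | s, Sum.inl _ :: c => holes (s + 1) c
  | s, Sum.inr (A, u, true) :: c => (s, A, u) :: holes (s + u.length) c
  | s, Sum.inr (_, u, false) :: c => holes (s + u.length) c

/-- every nonterminal item derives its word with stack `σ` -/
def Fill (σ : List Γ.F) (c : List (Item Γ)) : Prop :=
  ∀ (A : Γ.N) (u : List T) (b : Bool), Sum.inr (A, u, b) ∈ c → u ∈ Lang Γ A σ

/-- the marks agree with the predicate `Big` on intervals of positions -/
def Flags (Big : ℕ → ℕ → Prop) : ℕ → List (Item Γ) → Prop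
  | _, [] => True
  | s, Sum.inl _ :: c => Flags Big (s + 1) c
  | s, Sum.inr (_, u, b) :: c => (b = true ↔ Big s (s + u.length)) ∧ Flags Big (s + u.length) c

end Items

/-- weight of a mask that starts at position `s` -/
noncomputable def msum (μ : ℕ → ℝ) : ℕ → List Bool → ℝ
  | _, [] => 0
  | s, b :: l => (if b then μ s else 0) + msum μ (s + 1) l

/-- the value of a word -/
def val {T G : Type} [Group G] (ev : T → G) (w : List T) : G := (w.map ev).prod

/-- the sum of an integer weight over a word -/
def vs {T : Type} (v : T → ℤ) (w : List T) : ℤ := (w.map v).sum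

/-- the sum of an integer weight over the non-hole part of an annotated form -/
def kv {T : Type} {Γ : Gram T} (v : T → ℤ) : List (Item Γ) → ℤ
  | [] => 0
  | Sum.inl t :: c => v t + kv v c
  | Sum.inr (_, _, true) :: c => kv v c
  | Sum.inr (_, u, false) :: c => vs v u + kv v c

end Pool.Agent.Idx
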