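import Pool.Agent.Helper85_Idx.Defs

/-!
# Shapes: words with payload
-/

set_option autoImplicit false

namespace Pool.Agent.Idx

/-- A segment of a shape: an occurrence of the payload word of the edge `e` (its inverse if the
mark is `true`), or a fixed word. -/
inductive Seg (V T : Type)
  | pay (e : V) (b : Bool) : Seg V T
  | con (u : List T) : Seg V T

/-- The group `H` with letters `T` for it and letters `pl x` (`x : Bool`) for two elements that
generate a free submonoid, and letters `ni x` for their inverses. -/
structure Setup where
  T : Type
  H : Type
  grp : Group H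
  ev : T → H
  pl : Bool → T
  ni : Bool → T
  inv : ∀ x, ev (ni x) = (ev (pl x))⁻¹
  free : Function.Injective (fun w : List Bool => (w.map (fun x => ev (pl x))).prod)

attribute [instance] Setup.grp

section Words

variable (S : Setup) {V : Type}

/-- length of a segment if the payload words have length `m` -/
def slen (m : ℕ) : Seg V S.T → ℕ
  | Seg.pay _ _ => m
  | Seg.con u => u.length

/-- the start position of the segment with index `i` -/
def start (m : ℕ) (segs : List (Seg V S.T)) (i : ℕ) : ℕ := ((segs.take i).map (slen S m)).sum

/-- the word of a segment -/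
def segw {m : ℕ} (h : V → Fin m → Bool) : Seg V S.T → List S.T
  | Seg.pay e false => (List.ofFn (h e)).map S.pl
  | Seg.pay e true => ((List.ofFn (h e)).map S.ni).reverse
  | Seg.con u => u

/-- the word of a shape with payload `h` -/
def word {m : ℕ} (h : V → Fin m → Bool) (segs : List (Seg V S.T)) : List S.T :=
  (segs.map (segw S h)).flatten

/-- start position of the occurrence of the block `j` (of length `l`) of the payload in the
segment with index `i` (a segment with mark `b`); the payload has `p` blocks of length `l` -/
def blk (p l : ℕ) (segs : List (Seg V S.T)) (i : ℕ) (b : Bool) (j : ℕ) : ℕ :=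
  start S (p * l) segs i + (if b then p - 1 - j else j) * l

/-- the interval `[s, t)` contains a full block -/
def BigI (p l : ℕ) (segs : List (Seg V S.T)) (s t : ℕ) : Prop :=
  ∃ i e b j, segs[i]? = some (Seg.pay e b) ∧ j < p ∧ s ≤ blk S p l segs i b j ∧
    blk S p l segs i b j + l ≤ t

/-- whenever the interval `[s, t)` contains an occurrence of a block, it meets the other
occurrence of this block -/
def ClosedI (p l : ℕ) (segs : List (Seg V S.T)) (s t : ℕ) : Prop :=
  ∀ i i' e b j, segs[i]? = some (Seg.pay e b) → segs[i']? = some (Seg.pay e (!b)) → j < p →
    s ≤ blk S p l segs i b j → blk S p l segs i b j + l ≤ t →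
    s < blk S p l segs i' (!b) j + l ∧ blk S p l segs i' (!b) j < t

/-- every payload occurs at most once with each mark, and with both marks if at all -/
structure Twice (segs : List (Seg V S.T)) : Prop where
  uniq : ∀ (i i' : ℕ) (e : V) (b : Bool), segs[i]? = some (Seg.pay e b) →
    segs[i']? = some (Seg.pay e b) → i = i'
  pair : ∀ (i : ℕ) (e : V) (b : Bool), segs[i]? = some (Seg.pay e b) →
    ∃ i' : ℕ, segs[i']? = some (Seg.pay e (!b))

/-- the factor `[s, t)` of a word -/
def sl {T : Type} (w : List T) (s t : ℕ) : List T := (w.drop s).take (t - s)

/-- number of changes of a Boolean function on `[0, n]` -/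
def chg (χ : ℕ → Bool) (n : ℕ) : ℕ := ((Finset.range n).filter (fun j => χ j ≠ χ (j + 1))).card

end Words

end Pool.Agent.Idx
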