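import Pool.Agent.Helper85_Idx.Shape

/-!
# Statements of the modules
-/

set_option autoImplicit false

namespace Pool.Agent.Idx

/-! ## Part A: grammars -/

/-- NORM: from the grammars of Aho to normalised grammars. -/
def NormStmt : Prop := ∀ (T : Type) (L : Set (List T)), IsIndexed L →
  ∃ Γ : Gram T, L = Lang Γ Γ.S [Γ.bot]

/-- CLOS: closure under inverse homomorphisms with nonempty images. -/
def ClosStmt : Prop := ∀ (T T' : Type) (_ : Finite T') (Γ : Gram T) (φ : T' → List T),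
  (∀ x, φ x ≠ []) → ∃ Γ' : Gram T', Lang Γ' Γ'.S [Γ'.bot] =
    {w | (w.map φ).flatten ∈ Lang Γ Γ.S [Γ.bot]}

/-- BAL: the balanced context. `k` is the number of nonterminals, `r` bounds the right hand
sides. -/
def BalStmt : Prop := ∀ (T G : Type) (_ : Group G) (ev : T → G) (Γ : Gram T) (k r : ℕ)
  (W : List T) (μ : ℕ → ℝ) (Big : ℕ → ℕ → Prop),
  Nat.card Γ.N = k →
  (∀ A α, (A, α) ∈ Γ.R1 → α.length ≤ r) → (∀ A f α, (A, f, α) ∈ Γ.R3 → α.length ≤ r) →
  (∀ w ∈ Lang Γ Γ.S [Γ.bot], val ev w = 1) → W ∈ Lang Γ Γ.S [Γ.bot] →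
  (∀ j, 0 ≤ μ j) → ∑ j ∈ Finset.range W.length, μ j = 1 →
  (∀ s t s' t', s' ≤ s → t ≤ t' → Big s t → Big s' t') →
  (∀ s t, s ≤ t → t ≤ W.length → ¬ Big s t →
    (∑ j ∈ Finset.Ico s t, μ j) * (4 * (r + 3 * k + 1)) ≤ 1) →
  (∀ j, μ j * (4 * (r + 3 * k + 1)) ≤ 1) →
  (∀ s₁ t₁ s₂ t₂ s₃ t₃ s₄ t₄, s₁ ≤ t₁ → t₁ ≤ s₂ → s₂ ≤ t₂ → t₂ ≤ s₃ → s₃ ≤ t₃ → t₃ ≤ s₄ →
    s₄ ≤ t₄ → t₄ ≤ W.length → Big s₁ t₁ → Big s₂ t₂ → Big s₃ t₃ → Big s₄ t₄ →
    val ev (sl W s₁ t₁) = val ev (sl W s₂ t₂) → val ev (sl W s₁ t₁) = val ev (sl W s₃ t₃) →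
    val ev (sl W s₁ t₁) = val ev (sl W s₄ t₄) → False) →
  ∃ (X Z : List T) (A : Γ.N) (f : Γ.F) (σ : List Γ.F) (c : List (Item Γ)),
    W = X ++ flat c ++ Z ∧ (∃ n, D Γ n [Sum.inr A] [f] (form c)) ∧ Fill σ c ∧
    (∀ w ∈ Lang Γ A (f :: σ), val ev w = val ev (flat c)) ∧ Flags Big X.length c ∧
    (holes X.length c).length ≤ 3 * k ∧
    1 ≤ msum μ X.length (mask c) * (2 * (r + 3 * k + 1)) ∧ msum μ X.length (mask c) ≤ 1 / 2

/-- BHOL: a located context with one value has at most `3 k` holes. -/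
def BholStmt : Prop := ∀ (T G : Type) (_ : Group G) (ev : T → G) (Γ : Gram T) (k : ℕ)
  (W : List T) (Big : ℕ → ℕ → Prop) (X Z : List T) (A : Γ.N) (τ σ : List Γ.F)
  (c : List (Item Γ)), Nat.card Γ.N = k →
  (∀ s₁ t₁ s₂ t₂ s₃ t₃ s₄ t₄, s₁ ≤ t₁ → t₁ ≤ s₂ → s₂ ≤ t₂ → t₂ ≤ s₃ → s₃ ≤ t₃ → t₃ ≤ s₄ →
    s₄ ≤ t₄ → t₄ ≤ W.length → Big s₁ t₁ → Big s₂ t₂ → Big s₃ t₃ → Big s₄ t₄ →
    val ev (sl W s₁ t₁) = val ev (sl W s₂ t₂) → val ev (sl W s₁ t₁) = val ev (sl W s₃ t₃) →
    val ev (sl W s₁ t₁) = val ev (sl W s₄ t₄) → False) →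
  W = X ++ flat c ++ Z → (∃ n, D Γ n [Sum.inr A] τ (form c)) → Fill σ c →
  (∀ w ∈ Lang Γ A (τ ++ σ), val ev w = val ev (flat c)) → Flags Big X.length c →
  (holes X.length c).length ≤ 3 * k

/-- REP: replacing a context by a short one of the same class. -/
def RepStmt : Prop := ∀ (T : Type) (Γ : Gram T) (q : ℕ), ∃ C : ℕ, ∀ (G : Type) (_ : Group G)
  (ev : T → G) (v : T → ℤ) (B : ℕ) (A : Γ.N) (f : Γ.F) (σ : List Γ.F) (c : List (Item Γ))
  (s : ℕ), (∀ t, |v t| ≤ 1) → 1 ≤ B →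
  (∀ w w' : List T, val ev w = val ev w' → vs v w = vs v w') →
  (∃ n, D Γ n [Sum.inr A] [f] (form c)) → Fill σ c →
  (∀ w ∈ Lang Γ A (f :: σ), val ev w = val ev (flat c)) → (holes s c).length ≤ q →
  (∀ E u, Sum.inr (E, u, false) ∈ c → |vs v u| ≤ B) →
  |kv v c| ≤ C * B

/-- SGL: in a context with one value the returns have one value. -/
def SglStmt : Prop := ∀ (T G : Type) (_ : Group G) (ev : T → G) (Γ : Gram T) (A : Γ.N)
  (f : Γ.F) (σ : List Γ.F) (c : List (Item Γ)),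
  (∃ n, D Γ n [Sum.inr A] [f] (form c)) → Fill σ c →
  (∀ w ∈ Lang Γ A (f :: σ), val ev w = val ev (flat c)) →
  ∀ E u b, Sum.inr (E, u, b) ∈ c → ∀ u' ∈ Lang Γ E σ, val ev u' = val ev u

/-- the word that agrees with the second word where the mask is true, with the first elsewhere -/
def mixm {T : Type} : List Bool → List T → List T → List T
  | b :: bs, x :: xs, y :: ys => (if b then y else x) :: mixm bs xs ys
  | _, _, _ => []

/-- the mask of a located annotated form in the whole word -/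
def fmask {T : Type} {Γ : Gram T} (X Z : List T) (c : List (Item Γ)) : List Bool :=
  List.replicate X.length false ++ mask c ++ List.replicate Z.length false

/-- MIX: exchange of the non-hole parts of two contexts in the same position. -/
def MixStmt : Prop := ∀ (T G : Type) (_ : Group G) (ev : T → G) (Γ : Gram T) (A : Γ.N)
  (f : Γ.F) (σ : List Γ.F) (X Z X' Z' : List T) (c c' : List (Item Γ)),
  (∃ n, D Γ n [Sum.inr A] [f] (form c')) → Fill σ c →
  (∀ w ∈ Lang Γ A (f :: σ), val ev w = val ev (flat c)) →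
  X.length = X'.length → (flat c).length = (flat c').length → Z.length = Z'.length →
  (holes X.length c).map (fun x => (x.1, x.2.1, x.2.2.length)) =
    (holes X'.length c').map (fun x => (x.1, x.2.1, x.2.2.length)) →
  (∀ E u, Sum.inr (E, u, false) ∈ c' → ∃ u' ∈ Lang Γ E σ, val ev u' = val ev u) →
  val ev (mixm (fmask X Z c) (X ++ flat c ++ Z) (X' ++ flat c' ++ Z')) =
    val ev (X ++ flat c ++ Z)

/-! ## Part B: shapes, uniqueness, pigeonhole -/

/-- four disjoint big intervals with the same value -/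
def Four (S : Setup) {V : Type} (p l : ℕ) (segs : List (Seg V S.T))
    (h : V → Fin (p * l) → Bool) : Prop :=
  ∃ s₁ t₁ s₂ t₂ s₃ t₃ s₄ t₄, s₁ ≤ t₁ ∧ t₁ ≤ s₂ ∧ s₂ ≤ t₂ ∧ t₂ ≤ s₃ ∧ s₃ ≤ t₃ ∧ t₃ ≤ s₄ ∧
    s₄ ≤ t₄ ∧ t₄ ≤ (word S h segs).length ∧ BigI S p l segs s₁ t₁ ∧ BigI S p l segs s₂ t₂ ∧
    BigI S p l segs s₃ t₃ ∧ BigI S p l segs s₄ t₄ ∧
    val S.ev (sl (word S h segs) s₁ t₁) = val S.ev (sl (word S h segs) s₂ t₂) ∧
    val S.ev (sl (word S h segs) s₁ t₁) = val S.ev (sl (word S h segs) s₃ t₃) ∧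
    val S.ev (sl (word S h segs) s₁ t₁) = val S.ev (sl (word S h segs) s₄ t₄)

/-- disjoint big closed intervals have different values -/
def ClosedDist (S : Setup) {V : Type} (p l : ℕ) (segs : List (Seg V S.T)) : Prop :=
  ∀ (h : V → Fin (p * l) → Bool) (s t s' t' : ℕ), s ≤ t → t ≤ s' → s' ≤ t' →
    t' ≤ (word S h segs).length → BigI S p l segs s t → BigI S p l segs s' t' →
    ClosedI S p l segs s t → ClosedI S p l segs s' t' →
    val S.ev (sl (word S h segs) s t) ≠ val S.ev (sl (word S h segs) s' t')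

/-- ONE: the key step of the counting. If a block occurs in the first interval, and neither the
other occurrence meets this interval nor any occurrence meets the second interval, then changing
the block destroys the equality of the values. -/
def OneStmt : Prop := ∀ (S : Setup) (V : Type) (p l : ℕ) (segs : List (Seg V S.T))
  (h h' : V → Fin (p * l) → Bool) (s t s' t' i i' : ℕ) (e : V) (b : Bool) (j : ℕ),
  Twice S segs → s ≤ t → s' ≤ t' → t ≤ s' ∨ t' ≤ s → t ≤ (word S h segs).length →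
  t' ≤ (word S h segs).length → segs[i]? = some (Seg.pay e b) →
  segs[i']? = some (Seg.pay e (!b)) → j < p → s ≤ blk S p l segs i b j →
  blk S p l segs i b j + l ≤ t →
  (t ≤ blk S p l segs i' (!b) j ∨ blk S p l segs i' (!b) j + l ≤ s) →
  (t' ≤ blk S p l segs i' (!b) j ∨ blk S p l segs i' (!b) j + l ≤ s') →
  (∀ e' x, (e' ≠ e ∨ x.val < j * l ∨ (j + 1) * l ≤ x.val) → h' e' x = h e' x) →
  val S.ev (sl (word S h segs) s t) = val S.ev (sl (word S h segs) s' t') →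
  val S.ev (sl (word S h' segs) s t) = val S.ev (sl (word S h' segs) s' t') → h' = h

/-- UNIQ: for most payloads there are no four disjoint big intervals with the same value. -/
def UniqStmt : Prop := ∀ (S : Setup) (V : Type) (_ : Finite V) (p K : ℕ)
  (segs : ℕ → List (Seg V S.T)), 1 ≤ p → (∀ l, Twice S (segs l)) →
  (∀ l, start S (p * l) (segs l) (segs l).length ≤ K * (l + 1)) →
  (∀ l, (segs l).length ≤ K) → (∀ l, 1 ≤ l → ClosedDist S p l (segs l)) →
  ∃ l₀, ∀ l, l₀ ≤ l → 2 * Nat.card {h : V → Fin (p * l) → Bool // Four S p l (segs l) h} ≤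
    Nat.card (V → Fin (p * l) → Bool)

/-- TINY: the number of factors at tiny intervals. -/
def TinyStmt : Prop := ∀ (S : Setup) (V : Type) (_ : Finite V) (p l : ℕ)
  (segs : List (Seg V S.T)), 1 ≤ p → 1 ≤ l →
  {w : List S.T | ∃ (h : V → Fin (p * l) → Bool) (s t : ℕ), s ≤ t ∧
    t ≤ (word S h segs).length ∧ ¬ BigI S p l segs s t ∧ w = sl (word S h segs) s t}.Finite ∧
  {w : List S.T | ∃ (h : V → Fin (p * l) → Bool) (s t : ℕ), s ≤ t ∧
    t ≤ (word S h segs).length ∧ ¬ BigI S p l segs s t ∧ w = sl (word S h segs) s t}.ncard ≤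
    (start S (p * l) segs segs.length + 1) ^ 2 * 4 ^ l

/-- value of the weight at the position `j` -/
def vat {T : Type} (v : T → ℤ) (w : List T) (j : ℕ) : ℤ := (w[j]?).elim 0 v

/-- the payload `e` is mismatched: one occurrence inside, the other outside -/
def Mism (S : Setup) {V : Type} (m : ℕ) (segs : List (Seg V S.T)) (χ : ℕ → Bool) : Prop :=
  ∃ (e : V) (b : Bool) (i i' : ℕ), segs[i]? = some (Seg.pay e b) ∧
    segs[i']? = some (Seg.pay e (!b)) ∧
    (∀ j, start S m segs i ≤ j → j < start S m segs i + m → χ j = true) ∧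
    (∀ j, start S m segs i' ≤ j → j < start S m segs i' + m → χ j = false)

/-- PIG: the exchange argument: two payloads that differ only at a mismatched edge and whose
mixed word has value `1` are equal. -/
def PigStmt : Prop := ∀ (S : Setup) (V : Type) (m : ℕ) (segs : List (Seg V S.T))
  (h h' : V → Fin m → Bool) (M : List Bool) (e : V) (b : Bool) (i i' : ℕ),
  Twice S segs → segs[i]? = some (Seg.pay e b) → segs[i']? = some (Seg.pay e (!b)) →
  (∀ e', e' ≠ e → h' e' = h e') → M.length = (word S h segs).length →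
  (∀ j, start S m segs i ≤ j → j < start S m segs i + m → M.getD j false = true) →
  (∀ j, start S m segs i' ≤ j → j < start S m segs i' + m → M.getD j false = false) →
  val S.ev (mixm M (word S h segs) (word S h' segs)) = val S.ev (word S h segs) → h' = h

/-- FCHI: the mask of a located context as a Boolean function on positions. -/
def FchiStmt : Prop := ∀ (T : Type) (Γ : Gram T) (X Z : List T) (c : List (Item Γ))
  (μ : ℕ → ℝ) (v : T → ℤ) (χ : ℕ → Bool), (∀ j, χ j = (fmask X Z c).getD j false) →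
  (fmask X Z c).length = (X ++ flat c ++ Z).length ∧
  chg χ (X ++ flat c ++ Z).length ≤ 2 * ((holes X.length c).length + 1) ∧
  ∑ j ∈ (Finset.range (X ++ flat c ++ Z).length).filter (fun j => χ j = true), μ j =
    msum μ X.length (mask c) ∧
  ∑ j ∈ (Finset.range (X ++ flat c ++ Z).length).filter (fun j => χ j = true),
    vat v (X ++ flat c ++ Z) j = kv v c

/-- FCNT: the counting argument. -/
def FcntStmt : Prop := ∀ (V : Type) (_ : Finite V) (m : ℕ) (Dt : Type) (_ : Finite Dt)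
  (Good : Set (V → Fin m → Bool)) (dat : (V → Fin m → Bool) → Dt) (ed : Dt → V),
  (∀ h ∈ Good, ∀ h' ∈ Good, dat h = dat h' → (∀ e, e ≠ ed (dat h) → h' e = h e) → h' = h) →
  Nat.card (V → Fin m → Bool) ≤ 2 * Nat.card Good → 2 ^ m ≤ 2 * Nat.card Dt

/-- FEXP: the exponential wins. -/
def FexpStmt : Prop := ∀ (k K cF cV : ℕ), ∃ l₀ : ℕ, ∀ l, l₀ ≤ l → ∀ n tw : ℕ,
  n ≤ K * (l + 1) → tw ≤ (n + 1) ^ 2 * 4 ^ l →
  2 * ((n + 1) * (n + 1) * k * cF * (((n + 1) * k * (n + 1) + 1) ^ (3 * k)) * ((tw + 1) ^ k) *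
    (cV * 2 * K * K)) < 2 ^ ((2 * k + 1) * l)

/-- The hypotheses on a family of shapes in the frame theorem. -/
structure FrameData (S : Setup) (R p K B : ℕ) (V : Type) (segs : ℕ → List (Seg V S.T))
    (μ : (l : ℕ) → (V → Fin (p * l) → Bool) → ℕ → ℝ) (v : S.T → ℤ) : Prop where
  twice : ∀ l, Twice S (segs l)
  one : ∀ l (h : V → Fin (p * l) → Bool), val S.ev (word S h (segs l)) = 1
  len : ∀ l, start S (p * l) (segs l) (segs l).length ≤ K * (l + 1)
  num : ∀ l, (segs l).length ≤ K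
  dist : ∀ l, 1 ≤ l → ClosedDist S p l (segs l)
  μ0 : ∀ l h j, 0 ≤ μ l h j
  μ1 : ∀ l (h : V → Fin (p * l) → Bool), 1 ≤ l →
    ∑ j ∈ Finset.range (word S h (segs l)).length, μ l h j = 1
  μt : ∀ l (h : V → Fin (p * l) → Bool) s t, 1 ≤ l → s ≤ t →
    t ≤ (word S h (segs l)).length → ¬ BigI S p l (segs l) s t →
    (∑ j ∈ Finset.Ico s t, μ l h j) * (4 * R) ≤ 1
  μj : ∀ l (h : V → Fin (p * l) → Bool) j, 1 ≤ l → μ l h j * (4 * R) ≤ 1
  v1 : ∀ t, |v t| ≤ 1
  vc : ∀ w w' : List S.T, val S.ev w = val S.ev w' → vs v w = vs v w'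
  B1 : 1 ≤ B
  vt : ∀ l (h : V → Fin (p * l) → Bool) s t, 1 ≤ l → s ≤ t →
    t ≤ (word S h (segs l)).length → ¬ BigI S p l (segs l) s t →
    |vs v (sl (word S h (segs l)) s t)| ≤ B

/-- The conclusion of the frame theorem. -/
def FrameConc (S : Setup) (R Dc C p B : ℕ) (V : Type) (segs : List (Seg V S.T)) (l : ℕ)
    (μ : (V → Fin (p * l) → Bool) → ℕ → ℝ) (v : S.T → ℤ) : Prop :=
  ∃ (h : V → Fin (p * l) → Bool) (χ : ℕ → Bool),
    chg χ (word S h segs).length ≤ Dc ∧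
    1 ≤ (∑ j ∈ (Finset.range (word S h segs).length).filter (fun j => χ j = true), μ h j) *
      (2 * R) ∧
    ∑ j ∈ (Finset.range (word S h segs).length).filter (fun j => χ j = true), μ h j ≤ 1 / 2 ∧
    ¬ Mism S (p * l) segs χ ∧
    |∑ j ∈ (Finset.range (word S h segs).length).filter (fun j => χ j = true),
      vat v (word S h segs) j| ≤ C * B

/-- FRAME -/
def FrameStmt : Prop := ∀ (S : Setup) (Γ : Gram S.T),
  Lang Γ Γ.S [Γ.bot] = {w | val S.ev w = 1} →
  ∃ (R Dc C p : ℕ), 1 ≤ R ∧ 1 ≤ p ∧ ∀ (K B : ℕ) (V : Type) (_ : Finite V)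
    (segs : ℕ → List (Seg V S.T)) (μ : (l : ℕ) → (V → Fin (p * l) → Bool) → ℕ → ℝ)
    (v : S.T → ℤ), FrameData S R p K B V segs μ v →
    ∃ l₀, ∀ l, l₀ ≤ l → FrameConc S R Dc C p B V (segs l) l (μ l) v

/-! ## Part C: trees -/

/-- binary trees with names of the edges above the vertices and integer weights at the leaves -/
inductive BT (V : Type)
  | leaf (e : V) (m : ℤ) : BT V
  | node (e : V) (l r : BT V) : BT V

section Trees

variable {V T : Type}

/-- power of the letter `z` (inverse letter `z'`) -/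
def zw (z z' : T) (m : ℤ) : List T := List.replicate m.natAbs (if 0 ≤ m then z else z')

/-- the segments of a tree -/
def tsegs (z z' : T) : BT V → List (Seg V T)
  | BT.leaf e m => [Seg.pay e false, Seg.con (zw z z' m), Seg.pay e true]
  | BT.node e l r => Seg.pay e false :: (tsegs z z' l ++ tsegs z z' r ++ [Seg.pay e true])

/-- the edges of a tree -/
def edges : BT V → List V
  | BT.leaf e _ => [e]
  | BT.node e l r => e :: (edges l ++ edges r)

/-- the leaf weights from left to right -/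
def leaves : BT V → List ℤ
  | BT.leaf _ m => [m]
  | BT.node _ l r => leaves l ++ leaves r

/-- all subtrees -/
def subs : BT V → List (BT V)
  | BT.leaf e m => [BT.leaf e m]
  | BT.node e l r => BT.node e l r :: (subs l ++ subs r)

/-- total weight -/
def wt (t : BT V) : ℤ := (leaves t).sum

end Trees

/-- The letters of case I. -/
structure ZSetup extends Setup where
  z : T
  z' : T
  zinv : ev z' = (ev z)⁻¹
  comm : ∀ x, Commute (ev z) (ev (pl x))
  v : T → ℤ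
  vz : v z = 1
  vz' : v z' = -1
  vp : ∀ x, v (pl x) = 0
  vn : ∀ x, v (ni x) = 0
  v1 : ∀ t, |v t| ≤ 1
  vc : ∀ w w' : List T, val ev w = val ev w' → vs v w = vs v w'

/-- the segments of a forest -/
def fsegs {V T : Type} (z z' : T) (ts : List (BT V)) : List (Seg V T) :=
  (ts.map (tsegs z z')).flatten

/-- FTW: a forest with distinct edges has every payload twice. -/
def FtwStmt : Prop := ∀ (S : ZSetup) (V : Type) (ts : List (BT V)),
  ((ts.map edges).flatten).Nodup → Twice S.toSetup (fsegs S.z S.z' ts)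

/-- FVAL: the value of the word of a forest. -/
def FvalStmt : Prop := ∀ (S : ZSetup) (V : Type) (ts : List (BT V)) (m : ℕ)
  (h : V → Fin m → Bool),
  val S.ev (word S.toSetup h (fsegs S.z S.z' ts)) = S.ev S.z ^ ((ts.map wt).sum)

/-- FCL: disjoint big closed intervals in a forest with dissociated leaf weights have different
values. -/
def FclStmt : Prop := ∀ (S : ZSetup) (V : Type) (ts : List (BT V)) (p l : ℕ), 1 ≤ p → 1 ≤ l →
  ((ts.map edges).flatten).Nodup →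
  (∀ i j i' j', i < j → j ≤ i' → i' < j' → j' ≤ ((ts.map leaves).flatten).length →
    (sl ((ts.map leaves).flatten) i j).sum ≠ (sl ((ts.map leaves).flatten) i' j').sum) →
  (∀ x ∈ (ts.map leaves).flatten, x ≠ 0) →
  ClosedDist S.toSetup p l (fsegs S.z S.z' ts)

/-- FTB: a tiny interval of a forest meets at most one leaf. Stated for any letter weight that
vanishes on payload letters and is bounded on leaf words. -/
def FtbStmt : Prop := ∀ (S : ZSetup) (V : Type) (ts : List (BT V)) (p l : ℕ) (ω : S.T → ℝ)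
  (Bd : ℝ) (h : V → Fin (p * l) → Bool) (s t : ℕ), 1 ≤ p → 1 ≤ l → s ≤ t →
  t ≤ (word S.toSetup h (fsegs S.z S.z' ts)).length →
  ¬ BigI S.toSetup p l (fsegs S.z S.z' ts) s t →
  (∀ x, ω (S.pl x) = 0) → (∀ x, ω (S.ni x) = 0) → 0 ≤ Bd →
  (∀ x ∈ (ts.map leaves).flatten, |(x : ℝ)| * |ω S.z| ≤ Bd) →
  (∀ x ∈ (ts.map leaves).flatten, |(x : ℝ)| * |ω S.z'| ≤ Bd) →
  |((sl (word S.toSetup h (fsegs S.z S.z' ts)) s t).map ω).sum| ≤ Bd

/-- number of changes inside an interval of positions `[s, s + n)` -/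
def chgI (χ : ℕ → Bool) (s n : ℕ) : ℕ :=
  ((Finset.Ico s (s + n)).filter (fun j => j + 1 < s + n ∧ χ j ≠ χ (j + 1))).card

/-- the positions of the word of a tree that starts at `s`: weight of the part of the leaves
where `χ` is true -/
def lsum (S : ZSetup) {V : Type} (m : ℕ) (χ : ℕ → Bool) : ℕ → BT V → ℤ
  | s, BT.leaf _ x => (if 0 ≤ x then 1 else -1) *
      (((Finset.Ico (s + m) (s + m + x.natAbs)).filter (fun j => χ j = true)).card : ℤ)
  | s, BT.node _ l r => lsum S m χ (s + m) l +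
      lsum S m χ (s + m + start S.toSetup m (tsegs S.z S.z' l) (tsegs S.z S.z' l).length) r

/-- number of positions in the nonnegative leaves where `χ` is true -/
def leafPos (S : ZSetup) {V : Type} (m : ℕ) (χ : ℕ → Bool) : ℕ → BT V → ℕ
  | s, BT.leaf _ x => if 0 ≤ x then
      ((Finset.Ico (s + m) (s + m + x.natAbs)).filter (fun j => χ j = true)).card else 0
  | s, BT.node _ l r => leafPos S m χ (s + m) l + leafPos S m χ
      (s + m + start S.toSetup m (tsegs S.z S.z' l) (tsegs S.z S.z' l).length) r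

/-- number of positions in the negative leaves where `χ` is true -/
def leafNeg (S : ZSetup) {V : Type} (m : ℕ) (χ : ℕ → Bool) : ℕ → BT V → ℕ
  | s, BT.leaf _ x => if 0 ≤ x then 0 else
      ((Finset.Ico (s + m) (s + m + x.natAbs)).filter (fun j => χ j = true)).card
  | s, BT.node _ l r => leafNeg S m χ (s + m) l + leafNeg S m χ
      (s + m + start S.toSetup m (tsegs S.z S.z' l) (tsegs S.z S.z' l).length) r

/-- STAT: the weight of the part of a tree where `χ` is true, if `χ` has few changes and no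
edge is mismatched. -/
def StatStmt : Prop := ∀ (S : ZSetup) (V : Type) (m : ℕ) (χ : ℕ → Bool) (t : BT V) (s : ℕ)
  (Bd : ℤ), 1 ≤ m → (∀ x ∈ leaves t, x ≠ 0 ∧ |x| ≤ Bd) →
  (∀ i i' e b, (tsegs S.z S.z' t)[i]? = some (Seg.pay e b) →
    (tsegs S.z S.z' t)[i']? = some (Seg.pay e (!b)) →
    (∀ j, start S.toSetup m (tsegs S.z S.z' t) i ≤ j →
      j < start S.toSetup m (tsegs S.z S.z' t) i + m → χ (s + j) = true) →
    (∀ j, start S.toSetup m (tsegs S.z S.z' t) i' ≤ j →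
      j < start S.toSetup m (tsegs S.z S.z' t) i' + m → χ (s + j) = false) → False) →
  ∃ (a : ℤ) (J : List (ℤ × BT V)), (a = 0 ∨ a = 1) ∧
    J.length ≤ 3 * chgI χ s (start S.toSetup m (tsegs S.z S.z' t) (tsegs S.z S.z' t).length) ∧
    (∀ x ∈ J, (x.1 = 1 ∨ x.1 = -1) ∧ x.2 ∈ subs t) ∧
    |lsum S m χ s t - (a * wt t + (J.map (fun x => x.1 * wt x.2)).sum)| ≤
      chgI χ s (start S.toSetup m (tsegs S.z S.z' t) (tsegs S.z S.z' t).length) * Bd

/-- COMP: dyadic and triadic sums with few terms do not approach each other. -/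
def CompStmt : Prop := ∀ (c R : ℕ), 1 ≤ R → ∃ δ : ℝ, 0 < δ ∧
  ∀ (a b : ℤ) (P : List (ℤ × ℕ)) (Q : List (ℤ × ℕ × ℕ)), (a = 0 ∨ a = 1) → (b = 0 ∨ b = 1) →
    P.length ≤ c → Q.length ≤ c → (∀ x ∈ P, x.1 = 1 ∨ x.1 = -1) →
    (∀ x ∈ Q, (x.1 = 1 ∨ x.1 = -1) ∧ x.2.1 ≤ x.2.2) →
    1 / (4 * (R : ℝ)) ≤ (a : ℝ) + (P.map (fun x => (x.1 : ℝ) / 2 ^ x.2)).sum →
    (a : ℝ) + (P.map (fun x => (x.1 : ℝ) / 2 ^ x.2)).sum ≤ 3 / 4 →
    δ ≤ |((a : ℝ) + (P.map (fun x => (x.1 : ℝ) / 2 ^ x.2)).sum) -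
      ((b : ℝ) + (Q.map (fun x => (x.1 : ℝ) * 2 ^ x.2.1 / 3 ^ x.2.2)).sum)|

/-- index of a path: the binary number -/
def pidx (w : List Bool) : ℕ := w.foldl (fun n b => 2 * n + (if b then 1 else 0)) 0

/-- the complete binary tree of depth `n` below the path `w`, leaf weights `x` -/
def cbt {V : Type} (e : List Bool → V) (x : List Bool → ℤ) : ℕ → List Bool → BT V
  | 0, w => BT.leaf (e w) (x w)
  | n + 1, w => BT.node (e w) (cbt e x n (w ++ [false])) (cbt e x n (w ++ [true]))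

/-- the big modulus -/
def QQ (d : ℕ) : ℤ := 3 ^ (2 ^ (d + 1) + 1)

/-- leaf weights of the positive tree -/
def xp (d : ℕ) (w : List Bool) : ℤ := QQ d * 3 ^ d + 3 ^ (2 ^ d + pidx w)

/-- leaf weights of the negative tree -/
def xm (d : ℕ) (w : List Bool) : ℤ := -(QQ d * 2 ^ d * 2 ^ (w.count true) + 3 ^ (pidx w))

/-- names of the edges: number of the tree and code of the path -/
def ename (d : ℕ) (i : Fin 3) (w : List Bool) : Fin 3 × (Fin d → Option Bool) :=
  (i, fun j => w[j.val]?)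

/-- positive tree -/
def tp (d : ℕ) : BT (Fin 3 × (Fin d → Option Bool)) := cbt (ename d 0) (xp d) d []

/-- negative tree -/
def tm (d : ℕ) : BT (Fin 3 × (Fin d → Option Bool)) := cbt (ename d 1) (xm d) d []

/-- the forest -/
def forest (d : ℕ) : List (BT (Fin 3 × (Fin d → Option Bool))) :=
  [tp d, tm d, BT.leaf (ename d 2 []) (-(wt (tp d) + wt (tm d)))]

/-- TSUM: weights of the subtrees. -/
def TsumStmt : Prop := ∀ d : ℕ, 1 ≤ d →
  (∀ t ∈ subs (tp d), ∃ i ≤ d, QQ d * (3 ^ d * 2 ^ (d - i)) ≤ wt t ∧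
    wt t ≤ QQ d * (3 ^ d * 2 ^ (d - i)) + QQ d) ∧
  (∀ t ∈ subs (tm d), ∃ i ≤ d, ∃ r ≤ i, QQ d * (2 ^ (d + r) * 3 ^ (d - i)) ≤ -wt t ∧
    -wt t ≤ QQ d * (2 ^ (d + r) * 3 ^ (d - i)) + QQ d) ∧
  (QQ d * 6 ^ d ≤ wt (tp d) ∧ wt (tp d) ≤ QQ d * 6 ^ d + QQ d) ∧
  (QQ d * 6 ^ d ≤ -wt (tm d) ∧ -wt (tm d) ≤ QQ d * 6 ^ d + QQ d) ∧
  (0 < wt (tp d) + wt (tm d) ∧ wt (tp d) + wt (tm d) < QQ d) ∧
  (∀ x ∈ ((forest d).map leaves).flatten, x ≠ 0 ∧ |x| ≤ 2 * QQ d * 4 ^ d) ∧
  (∀ x ∈ leaves (tp d), 0 < x) ∧ (∀ x ∈ leaves (tm d), x < 0)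

/-- TNOD: the edges of the forest are distinct. -/
def TnodStmt : Prop := ∀ d : ℕ, (((forest d).map edges).flatten).Nodup

/-- TDIS: disjoint ranges of leaves have different weights. -/
def TdisStmt : Prop := ∀ d : ℕ, 1 ≤ d → ∀ i j i' j', i < j → j ≤ i' → i' < j' →
  j' ≤ (((forest d).map leaves).flatten).length →
  (sl (((forest d).map leaves).flatten) i j).sum ≠ (sl (((forest d).map leaves).flatten) i' j').sum

/-- TRED: the sums over the positions where `χ` is true are expressed by `lsum`. `ω` is a letter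
weight that vanishes on payload letters. -/
def TredStmt : Prop := ∀ (S : ZSetup) (V : Type) (ts : List (BT V)) (m : ℕ)
  (h : V → Fin m → Bool) (χ : ℕ → Bool) (ω : S.T → ℝ),
  (∀ x, ω (S.pl x) = 0) → (∀ x, ω (S.ni x) = 0) →
  ∑ j ∈ (Finset.range (word S.toSetup h (fsegs S.z S.z' ts)).length).filter
      (fun j => χ j = true), ((word S.toSetup h (fsegs S.z S.z' ts))[j]?).elim 0 ω =
    ∑ i ∈ Finset.range ts.length, ((ts[i]?).elim 0 (fun t =>
      ((leafPos S m χ (start S.toSetup m (fsegs S.z S.z' (ts.take i))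
        (fsegs S.z S.z' (ts.take i)).length) t : ℕ) : ℝ) * ω S.z +
      ((leafNeg S m χ (start S.toSetup m (fsegs S.z S.z' (ts.take i))
        (fsegs S.z S.z' (ts.take i)).length) t : ℕ) : ℝ) * ω S.z'))

/-- the segments of the forest -/
def tseg (S : ZSetup) (d : ℕ) : List (Seg (Fin 3 × (Fin d → Option Bool)) S.T) :=
  fsegs S.z S.z' (forest d)

/-- the letter weight that is constant on the letters with `v = 1` (in the words of a forest only
the letter `z`) and vanishes elsewhere -/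
noncomputable def tom (S : ZSetup) (d : ℕ) (t : S.T) : ℝ :=
  if S.v t = 1 then 1 / (wt (tp d) : ℝ) else 0

/-- the measure of the forest -/
noncomputable def tmu (S : ZSetup) (d m : ℕ) (h : Fin 3 × (Fin d → Option Bool) → Fin m → Bool)
    (j : ℕ) : ℝ := ((word S.toSetup h (tseg S d))[j]?).elim 0 (tom S d)

/-- TFD: the forests satisfy the hypotheses of the frame theorem. -/
def TfdStmt : Prop := ∀ (S : ZSetup) (R p : ℕ), 1 ≤ R → 1 ≤ p → ∃ d₀ : ℕ, ∀ d, d₀ ≤ d →
  ∃ K : ℕ, FrameData S.toSetup R p K (2 * 3 ^ (2 ^ (d + 1) + 1) * 4 ^ d)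
    (Fin 3 × (Fin d → Option Bool)) (fun _ => tseg S d) (fun l => tmu S d (p * l)) S.v

/-- TCN: the conclusion of the frame theorem fails for the forests. -/
def TcnStmt : Prop := ∀ (S : ZSetup) (R Dc C p : ℕ), 1 ≤ R → 1 ≤ p → ∃ d₀ : ℕ, ∀ d, d₀ ≤ d →
  ∀ l, 1 ≤ l → ¬ FrameConc S.toSetup R Dc C p (2 * 3 ^ (2 ^ (d + 1) + 1) * 4 ^ d)
    (Fin 3 × (Fin d → Option Bool)) (tseg S d) l (tmu S d (p * l)) S.v

/-- TREE: the forests for case I. -/
def TreeStmt : Prop := ∀ (S : ZSetup) (R Dc C p : ℕ), 1 ≤ R → 1 ≤ p →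
  ∃ (K B : ℕ) (V : Type) (_ : Finite V) (segs : ℕ → List (Seg V S.T))
    (μ : (l : ℕ) → (V → Fin (p * l) → Bool) → ℕ → ℝ),
    FrameData S.toSetup R p K B V segs μ S.v ∧
    ∀ l, 1 ≤ l → ¬ FrameConc S.toSetup R Dc C p B V (segs l) l (μ l) S.v

/-! ## Part D: matrices -/

/-- The setting of case II: all elements `u a ^ (-|u|)` commute, `a` the value of `pl true`. -/
def Comm2 (S : Setup) : Prop := ∀ u u' : List Bool,
  Commute (val S.ev (u.map S.pl) * (S.ev (S.pl true))⁻¹ ^ u.length)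
    (val S.ev (u'.map S.pl) * (S.ev (S.pl true))⁻¹ ^ u'.length)

/-- the first half of the matrix word: all payloads in row order -/
def mrow (S : Setup) (m₀ m : ℕ) : List (Seg (Fin m₀ × Fin m₀) S.T) :=
  (List.finRange m₀).flatMap (fun i => (List.finRange m₀).flatMap (fun j =>
    [Seg.pay (i, j) false, Seg.con (List.replicate m (S.ni true))]))

/-- the second half of the matrix word: all payloads in the reverse of column order -/
def mcol (S : Setup) (m₀ m : ℕ) : List (Seg (Fin m₀ × Fin m₀) S.T) :=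
  (List.finRange m₀).reverse.flatMap (fun j => (List.finRange m₀).reverse.flatMap (fun i =>
    [Seg.con (List.replicate m (S.pl true)), Seg.pay (i, j) true]))

/-- the matrix word -/
def mseg (S : Setup) (m₀ m : ℕ) : List (Seg (Fin m₀ × Fin m₀) S.T) := mrow S m₀ m ++ mcol S m₀ m

/-- the measure of the matrix word: uniform on the payload segments of the first half -/
noncomputable def mmu (m₀ m : ℕ) (j : ℕ) : ℝ :=
  if j < 2 * m * m₀ ^ 2 ∧ j % (2 * m) < m then 1 / ((m₀ : ℝ) ^ 2 * m) else 0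

/-- MTWI -/
def MtwiStmt : Prop := ∀ (S : Setup) (m₀ m : ℕ), Twice S (mseg S m₀ m) ∧
  (mseg S m₀ m).length = 4 * m₀ ^ 2 ∧
  start S m (mseg S m₀ m) (mseg S m₀ m).length = 4 * m₀ ^ 2 * m

/-- MVAL -/
def MvalStmt : Prop := ∀ (S : Setup), Comm2 S → ∀ (m₀ m : ℕ)
  (h : Fin m₀ × Fin m₀ → Fin m → Bool), val S.ev (word S h (mseg S m₀ m)) = 1

/-- MCLD -/
def McldStmt : Prop := ∀ (S : Setup) (m₀ p l : ℕ), 1 ≤ p → 1 ≤ l →
  ClosedDist S p l (mseg S m₀ (p * l))

/-- MTIN: the total measure is one and tiny intervals have small measure. -/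
def MtinStmt : Prop := ∀ (S : Setup) (m₀ p l : ℕ), 1 ≤ m₀ → 1 ≤ p → 1 ≤ l →
  ∑ j ∈ Finset.range (4 * m₀ ^ 2 * (p * l)), mmu m₀ (p * l) j = 1 ∧
  ∀ s t, s ≤ t → t ≤ 4 * m₀ ^ 2 * (p * l) → ¬ BigI S p l (mseg S m₀ (p * l)) s t →
    (∑ j ∈ Finset.Ico s t, mmu m₀ (p * l) j) * ((m₀ : ℝ) ^ 2 * p) ≤ 2

/-- MCON: a Boolean function with few changes and without mismatch is almost constant on the
first half. -/
def MconStmt : Prop := ∀ (S : Setup) (m₀ m Dc R : ℕ) (χ : ℕ → Bool), 1 ≤ m → 1 ≤ R →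
  2 * R * Dc < m₀ → chg χ (4 * m₀ ^ 2 * m) ≤ Dc → ¬ Mism S m (mseg S m₀ m) χ →
  ∑ j ∈ (Finset.range (4 * m₀ ^ 2 * m)).filter (fun j => χ j = true), mmu m₀ m j ≤ 1 / 2 →
  (∑ j ∈ (Finset.range (4 * m₀ ^ 2 * m)).filter (fun j => χ j = true), mmu m₀ m j) *
    (2 * R) < 1

/-- MATR: the matrix words for case II. -/
def MatrStmt : Prop := ∀ (S : Setup), Comm2 S → ∀ (R Dc C p : ℕ), 1 ≤ R → 1 ≤ p →
  ∃ (K B : ℕ) (V : Type) (_ : Finite V) (segs : ℕ → List (Seg V S.T))
    (μ : (l : ℕ) → (V → Fin (p * l) → Bool) → ℕ → ℝ),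
    FrameData S R p K B V segs μ (fun _ => 0) ∧
    ∀ l, 1 ≤ l → ¬ FrameConc S R Dc C p B V (segs l) l (μ l) (fun _ => 0)

end Pool.Agent.Idx
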